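import Mathlib

/-!
# Nilpotent normal subgroups with nilpotent-by-abelian quotients

Hall's criterion: if `N` is a nilpotent normal subgroup and `H / [N, N]` is nilpotent, then `H` is
nilpotent.  A group whose commutator subgroup is nilpotent is virtually nilpotent if its largest
metabelian quotient is.
-/

namespace Pool.Agent.H648R4

open Subgroup commutatorElement

variable {G : Type*} [Group G]

theorem sup_comm_le (A B T : Subgroup G) [A.Normal] [B.Normal] [T.Normal] :
    ⁅A ⊔ B, T⁆ ≤ ⁅A, T⁆ ⊔ ⁅B, T⁆ := by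
  rw [commutator_le]
  intro x hx t ht
  obtain ⟨a, ha, b, hb, rfl⟩ := mem_sup_of_normal_left.1 hx
  have h : ⁅a * b, t⁆ = (a * ⁅b, t⁆ * a⁻¹) * ⁅a, t⁆ := by
    simp only [commutatorElement_def]; group
  rw [h]
  have hB : (⁅B, T⁆ : Subgroup G).Normal := inferInstance
  exact mul_mem (mem_sup_right (hB.conj_mem _ (commutator_mem_commutator hb ht) a))
    (mem_sup_left (commutator_mem_commutator ha ht))

theorem three (A B T : Subgroup G) [A.Normal] [B.Normal] [T.Normal] :
    ⁅⁅A, B⁆, T⁆ ≤ ⁅⁅A, T⁆, B⁆ ⊔ ⁅A, ⁅B, T⁆⁆ := by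
  set K : Subgroup G := ⁅⁅A, T⁆, B⁆ ⊔ ⁅A, ⁅B, T⁆⁆ with hK
  have hz : ∀ X : Subgroup G, X ≤ K ↔ X.map (QuotientGroup.mk' K) = ⊥ := by
    intro X
    rw [Subgroup.map_eq_bot_iff, QuotientGroup.ker_mk']
  rw [hz, Subgroup.map_commutator, Subgroup.map_commutator]
  apply commutator_commutator_eq_bot_of_rotate
  · rw [← Subgroup.map_commutator, ← Subgroup.map_commutator, ← hz, commutator_comm]
    exact le_sup_right
  · rw [← Subgroup.map_commutator, ← Subgroup.map_commutator, ← hz, commutator_comm T A]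
    exact le_sup_left

/-- Iterated commutators with `T`. -/
def it (T A : Subgroup G) : ℕ → Subgroup G
  | 0 => A
  | k + 1 => ⁅it T A k, T⁆

instance it_normal (T A : Subgroup G) [T.Normal] [A.Normal] (k : ℕ) : (it T A k).Normal := by
  induction k with
  | zero => exact inferInstanceAs A.Normal
  | succ k ih =>
    have : (it T A k).Normal := ih
    exact inferInstanceAs (⁅it T A k, T⁆).Normal

theorem it_mono {T A B : Subgroup G} (h : A ≤ B) (k : ℕ) : it T A k ≤ it T B k := by
  induction k with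
  | zero => exact h
  | succ k ih => exact commutator_mono ih le_rfl

theorem it_succ' (T A : Subgroup G) (k : ℕ) : it T A (k + 1) = it T ⁅A, T⁆ k := by
  induction k with
  | zero => rfl
  | succ k ih => rw [it, ih, it]

theorem it_add (T A : Subgroup G) (k l : ℕ) : it T A (k + l) = it T (it T A k) l := by
  induction l with
  | zero => rfl
  | succ l ih => rw [← add_assoc, it, ih, it]

theorem it_le (T A : Subgroup G) [T.Normal] [A.Normal] (k : ℕ) : it T A k ≤ A := by
  induction k with
  | zero => exact le_rfl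
  | succ k ih => exact (commutator_le_left _ _).trans ih

theorem it_sup (T A B : Subgroup G) [T.Normal] [A.Normal] [B.Normal] (k : ℕ) :
    it T (A ⊔ B) k ≤ it T A k ⊔ it T B k := by
  induction k with
  | zero => exact le_rfl
  | succ k ih =>
    rw [it]
    exact (commutator_mono ih le_rfl).trans (sup_comm_le _ _ _)

theorem it_comm (T : Subgroup G) [T.Normal] : ∀ (n s c : ℕ), s + c = n →
    ∀ (A B : Subgroup G), A.Normal → B.Normal →
    it T ⁅A, B⁆ (s + c) ≤ ⁅it T A s, B⁆ ⊔ ⁅A, it T B c⁆ := by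
  intro n
  induction n with
  | zero =>
    intro s c h A B hA hB
    obtain ⟨rfl, rfl⟩ : s = 0 ∧ c = 0 := by omega
    exact le_sup_left
  | succ n ih =>
    intro s c h A B hA hB
    rcases Nat.eq_zero_or_pos s with rfl | hs
    · exact (it_le T _ _).trans le_sup_left
    rcases Nat.eq_zero_or_pos c with rfl | hc
    · exact (it_le T _ _).trans le_sup_right
    obtain ⟨s, rfl⟩ := Nat.exists_eq_succ_of_ne_zero hs.ne'
    obtain ⟨c, rfl⟩ := Nat.exists_eq_succ_of_ne_zero hc.ne'
    have e : s.succ + c.succ = (s + (c + 1)) + 1 := by omega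
    rw [e, it_succ']
    refine (it_mono (three A B T) _).trans ((it_sup T _ _ _).trans (sup_le ?_ ?_))
    · refine (ih s (c + 1) (by omega) ⁅A, T⁆ B inferInstance hB).trans (sup_le ?_ ?_)
      · rw [← it_succ']; exact le_sup_left
      · exact (commutator_mono (commutator_le_left _ _) le_rfl).trans le_sup_right
    · rw [show s + (c + 1) = (s + 1) + c by omega]
      refine (ih (s + 1) c (by omega) A ⁅B, T⁆ hA inferInstance).trans (sup_le ?_ ?_)
      · exact (commutator_mono le_rfl (commutator_le_left _ _)).trans le_sup_left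
      · rw [← it_succ']; exact le_sup_right

theorem comm_lcs (N : Subgroup G) [N.Normal] (i : ℕ) :
    ⁅N.lowerCentralSeries i, ⁅N, N⁆⁆ ≤ N.lowerCentralSeries (i + 2) := by
  rw [commutator_comm]
  refine (three N N (N.lowerCentralSeries i)).trans (sup_le ?_ ?_)
  · rw [commutator_comm N (N.lowerCentralSeries i)]
    exact le_rfl
  · rw [commutator_comm N, commutator_comm N (N.lowerCentralSeries i)]
    exact le_rfl

/-- Hall's criterion. -/
theorem hall {N H : Subgroup G} [N.Normal] [H.Normal] (hNH : N ≤ H) {c k : ℕ}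
    (hN : N.lowerCentralSeries c = ⊥) (hH : H.lowerCentralSeries k ≤ ⁅N, N⁆) :
    ∃ m, H.lowerCentralSeries m = ⊥ := by
  have hit : ∀ m, H.lowerCentralSeries m = it H H m := by
    intro m
    induction m with
    | zero => rfl
    | succ m ih => rw [Subgroup.lowerCentralSeries_succ, ih, it]
  have h1 : ∀ i, ∃ s, it H (N.lowerCentralSeries i) s ≤ N.lowerCentralSeries (i + 1) := by
    intro i
    induction i with
    | zero =>
      refine ⟨k, (it_mono hNH k).trans ?_⟩
      rw [← hit]
      exact hH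
    | succ i ih =>
      obtain ⟨s, hs⟩ := ih
      refine ⟨s + k, (it_comm H (s + k) s k rfl (N.lowerCentralSeries i) N inferInstance
        inferInstance).trans (sup_le (commutator_mono hs le_rfl) ?_)⟩
      refine (commutator_mono le_rfl ((it_mono hNH k).trans ?_)).trans (comm_lcs N i)
      rw [← hit]
      exact hH
  have h2 : ∀ i, ∃ m, it H H m ≤ N.lowerCentralSeries (i + 1) := by
    intro i
    induction i with
    | zero => exact ⟨k, by rw [← hit]; exact hH⟩
    | succ i ih =>
      obtain ⟨m, hm⟩ := ih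
      obtain ⟨s, hs⟩ := h1 (i + 1)
      exact ⟨m + s, by rw [it_add]; exact (it_mono hm s).trans hs⟩
  obtain ⟨m, hm⟩ := h2 c
  refine ⟨m, ?_⟩
  rw [hit, eq_bot_iff]
  refine hm.trans ?_
  rw [← hN]
  exact N.lowerCentralSeries_antitone (Nat.le_succ c)

/-- A normal nilpotent subgroup and the commutator subgroup, when the latter is commutative. -/
theorem fitting {K D : Subgroup G} [K.Normal] [D.Normal] (hD : ⁅(⊤ : Subgroup G), ⊤⁆ ≤ D)
    (hDD : ∀ a ∈ D, ∀ b ∈ D, a * b = b * a) (i : ℕ) :
    (K ⊔ D).lowerCentralSeries (i + 2) ≤ K.lowerCentralSeries i ⊓ D := by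
  have hel : ∀ a ∈ D, ∀ k : G, ∀ d ∈ D, ⁅a, k * d⁆ = ⁅a, k⁆ := by
    intro a ha k d hd
    have h1 : k * (a * d * a⁻¹ * d⁻¹) * k⁻¹ = 1 := by
      rw [hDD a ha d hd]; group
    have h2 : ⁅a, k * d⁆ = ⁅a, k⁆ * (k * (a * d * a⁻¹ * d⁻¹) * k⁻¹) := by
      simp only [commutatorElement_def]; group
    rw [h2, h1, mul_one]
  induction i with
  | zero =>
    rw [Subgroup.lowerCentralSeries_succ, commutator_le]
    intro a ha x hx
    have ha' : a ∈ D := hD ((commutator_mono le_top le_top) ha)
    obtain ⟨k, hk, d, hd, rfl⟩ := mem_sup_of_normal_left.1 hx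
    rw [hel a ha' k d hd]
    exact mem_inf.2 ⟨(commutator_le_right D K) (commutator_mem_commutator ha' hk),
      (commutator_le_left D K) (commutator_mem_commutator ha' hk)⟩
  | succ i ih =>
    rw [Subgroup.lowerCentralSeries_succ, commutator_le]
    intro a ha x hx
    obtain ⟨haK, haD⟩ := mem_inf.1 (ih ha)
    obtain ⟨k, hk, d, hd, rfl⟩ := mem_sup_of_normal_left.1 hx
    rw [hel a haD k d hd]
    exact mem_inf.2 ⟨commutator_mem_commutator haK hk,
      (commutator_le_left D K) (commutator_mem_commutator haD hk)⟩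

/-- If `[G, G]` is nilpotent and `G / [[G, G], [G, G]]` is virtually nilpotent, then `G` is
virtually nilpotent. -/
theorem virt_of_quot {c : ℕ} (hc : (commutator G).lowerCentralSeries c = ⊥)
    (hv : ∃ H : Subgroup (G ⧸ ⁅commutator G, commutator G⁆), H.FiniteIndex ∧
      Group.IsNilpotent H) :
    ∃ H : Subgroup G, H.FiniteIndex ∧ Group.IsNilpotent H := by
  obtain ⟨H, hH, hHn⟩ := hv
  set D2 : Subgroup G := ⁅commutator G, commutator G⁆ with hD2
  set π : G →* G ⧸ D2 := QuotientGroup.mk' D2 with hπ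
  set K : Subgroup (G ⧸ D2) := H.normalCore with hK
  have hKfin : K.FiniteIndex := inferInstance
  obtain ⟨k, hk⟩ := (isNilpotent_iff_lowerCentralSeries _).1 hHn
  have hKk : K.lowerCentralSeries k = ⊥ := by
    rw [eq_bot_iff, ← hk]
    exact lowerCentralSeries_mono k H.normalCore_le
  set D : Subgroup (G ⧸ D2) := (commutator G).map π with hD
  have hsurj : Function.Surjective π := QuotientGroup.mk'_surjective D2
  have hDn : D.Normal := Subgroup.Normal.map inferInstance π hsurj
  have hDtop : ⁅(⊤ : Subgroup (G ⧸ D2)), ⊤⁆ ≤ D := by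
    have h0 : Subgroup.map π ⁅(⊤ : Subgroup G), ⊤⁆ = ⁅(⊤ : Subgroup (G ⧸ D2)), ⊤⁆ := by
      rw [Subgroup.map_commutator, ← MonoidHom.range_eq_map, MonoidHom.range_eq_top.2 hsurj]
    exact h0.ge
  have hDD : ∀ a ∈ D, ∀ b ∈ D, a * b = b * a := by
    rintro _ ⟨a, ha, rfl⟩ _ ⟨b, hb, rfl⟩
    have h1 : ⁅a, b⁆ ∈ D2 := commutator_mem_commutator ha hb
    have h2 : π ⁅a, b⁆ = 1 := (QuotientGroup.eq_one_iff _).2 h1
    rw [map_commutatorElement, commutatorElement_eq_one_iff_mul_comm] at h2
    exact h2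
  have h3 := fitting (K := K) (D := D) hDtop hDD k
  rw [hKk] at h3
  set L : Subgroup G := (K ⊔ D).comap π with hL
  have hLn : L.Normal := inferInstance
  have hNL : commutator G ≤ L := by
    rw [hL, ← Subgroup.map_le_iff_le_comap]
    exact le_sup_right
  have hLk : L.lowerCentralSeries (k + 2) ≤ ⁅commutator G, commutator G⁆ := by
    have h4 : (L.lowerCentralSeries (k + 2)).map π = ⊥ := by
      rw [map_lowerCentralSeries, hL, Subgroup.map_comap_eq_self_of_surjective hsurj,
        eq_bot_iff]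
      exact h3.trans inf_le_left
    rw [Subgroup.map_eq_bot_iff, hπ, QuotientGroup.ker_mk'] at h4
    exact h4
  obtain ⟨m, hm⟩ := hall hNL hc hLk
  refine ⟨L, ?_, (isNilpotent_iff_lowerCentralSeries _).2 ⟨m, hm⟩⟩
  have h5 : (K ⊔ D).FiniteIndex := Subgroup.finiteIndex_of_le le_sup_left
  constructor
  rw [hL, Subgroup.index_comap_of_surjective _ hsurj]
  exact h5.index_ne_zero

end Pool.Agent.H648R4
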