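import Mathlib

/-!
# Sorting products in nilpotent groups

Two products of the same `n` elements in different orders differ by a product of polynomially many
left-normed commutators.
-/

namespace Pool.Agent.H648R4

open commutatorElement

variable {G : Type*} [Group G]

/-- Left-normed commutators of weight `s + 1`. -/
def F (U : Set G) : ℕ → Set G
  | 0 => U
  | s + 1 => {z | ∃ x ∈ U, ∃ y ∈ F U s, z = ⁅x, y⁆}

/-- Products of commutators of weights `2, ..., c` with potential at most `L`. -/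
def PP (U : Set G) (c : ℕ) (B L : ℝ) (x : G) : Prop :=
  ∃ l : List (ℕ × G), (∀ p ∈ l, 1 ≤ p.1 ∧ p.1 < c ∧ p.2 ∈ F U p.1) ∧
    (l.map Prod.snd).prod = x ∧ (l.map fun p => B ^ (c - 1 - p.1)).sum ≤ L

variable {U : Set G} {c : ℕ} {B : ℝ}

theorem PP.mono {L L' : ℝ} {x : G} (h : PP U c B L x) (hL : L ≤ L') : PP U c B L' x := by
  obtain ⟨l, h1, h2, h3⟩ := h
  exact ⟨l, h1, h2, h3.trans hL⟩

theorem PP.mul {L L' : ℝ} {x y : G} (h : PP U c B L x) (h' : PP U c B L' y) :
    PP U c B (L + L') (x * y) := by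
  obtain ⟨l, h1, h2, h3⟩ := h
  obtain ⟨l', h1', h2', h3'⟩ := h'
  refine ⟨l ++ l', fun p hp => ?_, ?_, ?_⟩
  · rcases List.mem_append.1 hp with h | h
    · exact h1 p h
    · exact h1' p h
  · rw [List.map_append, List.prod_append, h2, h2']
  · rw [List.map_append, List.sum_append]
    exact add_le_add h3 h3'

theorem PP.one : PP U c B 0 1 := ⟨[], by simp, by simp, by simp⟩

theorem PP.single {s : ℕ} {z : G} (h1 : 1 ≤ s) (h2 : s < c) (hz : z ∈ F U s) :
    PP U c B (B ^ (c - 1 - s)) z :=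
  ⟨[(s, z)], by simpa using ⟨h1, h2, hz⟩, by simp, by simp⟩

theorem PP.conj (hB : 0 < B) (hc : ∀ z ∈ F U c, z = 1) {x y : G} (hx : x ∈ U) {L : ℝ}
    (h : PP U c B L y) : PP U c B ((1 + 1 / B) * L) (x * y * x⁻¹) := by
  obtain ⟨l, hl, rfl, hs⟩ := h
  have hr : 0 ≤ 1 + 1 / B := by positivity
  refine PP.mono (L := (1 + 1 / B) * (l.map fun p => B ^ (c - 1 - p.1)).sum) ?_
    (mul_le_mul_of_nonneg_left hs hr)
  clear hs
  induction l with
  | nil => simpa using PP.one
  | cons p l ih =>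
    obtain ⟨s, z⟩ := p
    have ih' := ih fun p hp => hl p (List.mem_cons_of_mem _ hp)
    obtain ⟨h1, h2, hz⟩ := hl (s, z) (by simp)
    simp only at h1 h2 hz
    have e : x * (((s, z) :: l).map Prod.snd).prod * x⁻¹ =
        (⁅x, z⁆ * z) * (x * (l.map Prod.snd).prod * x⁻¹) := by
      simp only [List.map_cons, List.prod_cons, commutatorElement_def]; group
    rw [e, List.map_cons, List.sum_cons, mul_add]
    refine PP.mul ?_ ih'
    by_cases hsc : s + 1 < c
    · have h3 : PP U c B (B ^ (c - 1 - (s + 1))) ⁅x, z⁆ :=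
        PP.single (by omega) hsc ⟨x, hx, z, hz, rfl⟩
      refine (h3.mul (PP.single h1 h2 hz)).mono ?_
      have h4 : c - 1 - s = (c - 1 - (s + 1)) + 1 := by omega
      rw [h4, pow_succ]
      have : (1 + 1 / B) * (B ^ (c - 1 - (s + 1)) * B) =
        B ^ (c - 1 - (s + 1)) + B ^ (c - 1 - (s + 1)) * B := by
        field_simp
        ring
      rw [this]
    · have h3 : s + 1 = c := by omega
      have h4 : ⁅x, z⁆ = 1 := hc _ (by rw [← h3]; exact ⟨x, hx, z, hz, rfl⟩)
      rw [h4, one_mul]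
      refine (PP.single h1 h2 hz).mono ?_
      have : (0 : ℝ) ≤ B ^ (c - 1 - s) := by positivity
      nlinarith [mul_nonneg (by positivity : (0 : ℝ) ≤ 1 / B) this]

theorem PP.comm_prod (hB : 0 < B) (hc : ∀ z ∈ F U c, z = 1) (h2c : 2 ≤ c) {x : G} (hx : x ∈ U)
    (l : List G) (hl : ∀ u ∈ l, u ∈ U) :
    PP U c B (l.length * (1 + 1 / B) ^ l.length * B ^ (c - 2)) ⁅l.prod, x⁆ := by
  induction l with
  | nil => simpa using PP.one
  | cons u l ih =>
    have ih' := ih fun p hp => hl p (List.mem_cons_of_mem _ hp)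
    have hu := hl u (by simp)
    have e : ⁅(u :: l).prod, x⁆ = (u * ⁅l.prod, x⁆ * u⁻¹) * ⁅u, x⁆ := by
      simp only [List.prod_cons, commutatorElement_def]; group
    rw [e]
    have h1 : PP U c B (B ^ (c - 1 - 1)) ⁅u, x⁆ := PP.single le_rfl (by omega) ⟨u, hu, x, hx, rfl⟩
    refine ((PP.conj hB hc hu ih').mul h1).mono ?_
    rw [List.length_cons, show c - 1 - 1 = c - 2 by omega]
    set β := B ^ (c - 2) with hβ
    set r := 1 + 1 / B with hr
    have hβ0 : 0 ≤ β := by positivity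
    have hr1 : 1 ≤ r := by
      rw [hr]
      have : 0 ≤ 1 / B := by positivity
      linarith
    have h5 : 1 ≤ r ^ (l.length + 1) := one_le_pow₀ hr1
    push_cast
    have e2 : ((l.length : ℝ) + 1) * r ^ (l.length + 1) * β =
        r * (l.length * r ^ l.length * β) + r ^ (l.length + 1) * β := by
      rw [pow_succ]; ring
    rw [e2]
    have := mul_le_mul_of_nonneg_right h5 hβ0
    linarith

theorem PP.sort (hB : 0 < B) (hc : ∀ z ∈ F U c, z = 1) (h2c : 2 ≤ c) (l' : List G) :
    ∀ l : List G, l.Perm l' → (∀ u ∈ l', u ∈ U) →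
    ∃ e, PP U c B ((l'.length : ℝ) ^ 2 * (1 + 1 / B) ^ l'.length * B ^ (c - 2)) e ∧
      l.prod = e * l'.prod := by
  induction l' with
  | nil =>
    intro l hl _
    rw [List.perm_nil] at hl
    subst hl
    exact ⟨1, by simpa using PP.one, by simp⟩
  | cons x l' ih =>
    intro l hl hU
    obtain ⟨l1, l2, rfl⟩ := List.append_of_mem (hl.mem_iff.2 (by simp) : x ∈ l)
    have hp : (l1 ++ l2).Perm l' := (List.perm_middle.symm.trans hl).cons_inv
    obtain ⟨e2, he2, hprod⟩ := ih _ hp fun u hu => hU u (List.mem_cons_of_mem _ hu)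
    have hx := hU x (by simp)
    have hl1 : ∀ u ∈ l1, u ∈ U := fun u hu =>
      hU u (List.mem_cons_of_mem _ (hp.mem_iff.1 (List.mem_append_left _ hu)))
    have h3 := PP.comm_prod hB hc h2c hx l1 hl1
    refine ⟨⁅l1.prod, x⁆ * (x * e2 * x⁻¹), (h3.mul (PP.conj hB hc hx he2)).mono ?_, ?_⟩
    · have hlen : l1.length ≤ l'.length := by
        rw [← hp.length_eq, List.length_append]; omega
      rw [List.length_cons]
      set β := B ^ (c - 2) with hβ
      set r := 1 + 1 / B with hr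
      have hβ0 : 0 ≤ β := by positivity
      have hr1 : 1 ≤ r := by
        rw [hr]
        have : 0 ≤ 1 / B := by positivity
        linarith
      have hr0 : 0 ≤ r := by linarith
      push_cast
      have a1 : (l1.length : ℝ) * r ^ l1.length * β ≤ l'.length * r ^ (l'.length + 1) * β := by
        refine mul_le_mul_of_nonneg_right ?_ hβ0
        refine mul_le_mul (by exact_mod_cast hlen) ?_ (by positivity) (by positivity)
        exact pow_le_pow_right₀ hr1 (by omega)
      have a2 : r * ((l'.length : ℝ) ^ 2 * r ^ l'.length * β) =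
          (l'.length : ℝ) ^ 2 * r ^ (l'.length + 1) * β := by rw [pow_succ]; ring
      have a3 : ((l'.length : ℝ) + 1) ^ 2 * r ^ (l'.length + 1) * β =
          (l'.length : ℝ) ^ 2 * r ^ (l'.length + 1) * β +
          l'.length * r ^ (l'.length + 1) * β + (l'.length + 1) * r ^ (l'.length + 1) * β := by
        ring
      rw [a2, a3]
      have a4 : 0 ≤ ((l'.length : ℝ) + 1) * r ^ (l'.length + 1) * β := by positivity
      linarith
    · have e1 : (l1 ++ x :: l2).prod = ⁅l1.prod, x⁆ * x * (l1 ++ l2).prod := by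
        simp only [List.prod_append, List.prod_cons, commutatorElement_def]; group
      rw [e1, hprod, List.prod_cons]
      group

theorem PP.length_le (hB : 1 ≤ B) {L : ℝ} {x : G} (h : PP U c B L x) :
    ∃ zs : List G, (zs.length : ℝ) ≤ L ∧ (∀ z ∈ zs, ∃ s, 1 ≤ s ∧ s < c ∧ z ∈ F U s) ∧
      zs.prod = x := by
  obtain ⟨l, h1, h2, h3⟩ := h
  refine ⟨l.map Prod.snd, ?_, ?_, h2⟩
  · refine le_trans ?_ h3
    rw [List.length_map]
    clear h1 h2 h3
    induction l with
    | nil => simp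
    | cons p l ih =>
      rw [List.length_cons, List.map_cons, List.sum_cons]
      have : 1 ≤ B ^ (c - 1 - p.1) := one_le_pow₀ hB
      push_cast
      linarith
  · intro z hz
    obtain ⟨p, hp, rfl⟩ := List.mem_map.1 hz
    exact ⟨p.1, h1 p hp⟩

/-- Sorting a product with polynomially many commutators. -/
theorem sort_poly (hc : ∀ z ∈ F U c, z = 1) (h2c : 2 ≤ c) (l l' : List G) (hp : l.Perm l')
    (hU : ∀ u ∈ l', u ∈ U) :
    ∃ zs : List G, zs.length ≤ 3 * (l'.length + 1) ^ c ∧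
      (∀ z ∈ zs, ∃ s, 1 ≤ s ∧ s < c ∧ z ∈ F U s) ∧ l.prod = zs.prod * l'.prod := by
  set n := l'.length with hn
  have hB : (0 : ℝ) < (n : ℝ) + 1 := by positivity
  obtain ⟨e, he, hprod⟩ := PP.sort (B := (n : ℝ) + 1) hB hc h2c l' l hp hU
  rw [← hn] at he
  obtain ⟨zs, h1, h2, h3⟩ := PP.length_le (by linarith [Nat.cast_nonneg (α := ℝ) n]) he
  refine ⟨zs, ?_, h2, by rw [h3, hprod]⟩
  have h4 : (1 + 1 / ((n : ℝ) + 1)) ^ n ≤ 3 := by
    have h5 : 1 + 1 / ((n : ℝ) + 1) ≤ Real.exp (1 / ((n : ℝ) + 1)) := by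
      have := Real.add_one_le_exp (1 / ((n : ℝ) + 1))
      linarith
    have h6 : (1 + 1 / ((n : ℝ) + 1)) ^ n ≤ Real.exp (1 / ((n : ℝ) + 1)) ^ n :=
      pow_le_pow_left₀ (by positivity) h5 n
    refine h6.trans ?_
    rw [← Real.exp_nat_mul]
    have h7 : (n : ℝ) * (1 / ((n : ℝ) + 1)) ≤ 1 := by
      rw [mul_one_div, div_le_one hB]; linarith
    refine (Real.exp_le_exp.2 h7).trans ?_
    have := Real.exp_one_lt_d9
    linarith
  have h8 : (zs.length : ℝ) ≤ 3 * ((n : ℝ) + 1) ^ c := by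
    refine h1.trans ?_
    have e1 : ((n : ℝ) + 1) ^ c = ((n : ℝ) + 1) ^ 2 * ((n : ℝ) + 1) ^ (c - 2) := by
      rw [← pow_add]; congr 1; omega
    rw [e1, ← mul_assoc]
    refine mul_le_mul_of_nonneg_right ?_ (by positivity)
    calc (n : ℝ) ^ 2 * (1 + 1 / ((n : ℝ) + 1)) ^ n ≤ ((n : ℝ) + 1) ^ 2 * 3 := by
          refine mul_le_mul ?_ h4 (by positivity) (by positivity)
          exact pow_le_pow_left₀ (by positivity) (by linarith) 2
      _ = 3 * ((n : ℝ) + 1) ^ 2 := by ring
  exact_mod_cast h8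

theorem F_subset_lcs {N : Subgroup G} (hN : ∀ u ∈ U, u ∈ N) (s : ℕ) :
    ∀ z ∈ F U s, z ∈ N.lowerCentralSeries s := by
  induction s with
  | zero => exact fun z hz => hN z hz
  | succ s ih =>
    rintro _ ⟨x, hx, y, hy, rfl⟩
    rw [Subgroup.lowerCentralSeries_succ, Subgroup.commutator_comm]
    exact Subgroup.commutator_mem_commutator (hN x hx) (ih y hy)

end Pool.Agent.H648R4
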