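import Pool.Agent.H648R4.Red

/-!
# Overgroups, and membership in `NP`
-/

namespace Pool.Agent.NPC.SSP648

open Pool.Agent.H648R3.SSP Pool.Agent.H648R4

/-- A problem with polynomially bounded certificates that can be checked in polynomial time after a
polynomial-time transformation is in `NP`. -/
theorem inNPP_of_inPP {α β γ : Type} [TEnc α] [TEnc β] [TEnc γ] [TDec α] [TDec β] {P : α → Prop}
    {R : γ → Prop} (hR : InPP R) {f : α × β → γ} (hf : Poly f) (p : Polynomial ℕ)
    (h : ∀ a, P a ↔ ∃ w : β, sz w ≤ p.eval (sz a) ∧ R (f (a, w))) : InNPP P := by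
  obtain ⟨V, hV, hV'⟩ := hR
  have hg : Poly (fun y : List Bool => (match unbits α (unpair y).1 with
      | none => none
      | some a => match unbits β (unpair y).2 with
        | none => none
        | some b => some (f (a, b)) : Option γ)) := by
    refine Poly.optCases (g := fun _ => none)
      (h := fun y a => match unbits β (unpair y).2 with
          | none => none
          | some b => some (f (a, b))) (poly_unbits.comp (Poly.fst poly_unpair)) (Poly.const _) ?_
    refine (Poly.optMap (o := fun p : List Bool × α => unbits β (unpair p.1).2)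
      (f := fun p b => f (p.2, b))
      (poly_unbits.comp (Poly.snd (poly_unpair.comp (Poly.fst Poly.id))))
      (hf.comp (Poly.pair (Poly.snd (Poly.fst Poly.id)) (Poly.snd Poly.id)))).congr fun p => ?_
    cases unbits β (unpair p.1).2 <;> rfl
  refine ⟨_, p, H642R2.TMSim.polyTime_comp hV (polyTime_opt hg), fun x => ?_⟩
  rw [mem_lang_iff]
  have hnil : V [] ≠ [true] := fun h => nil_notMem_lang ((hV' []).2 h)
  constructor
  · rintro ⟨a, ha, hPa⟩
    obtain ⟨w, hw, hRw⟩ := (h a).1 hPa
    have hx := bits_of_unbits ha
    refine ⟨bits w, ?_, ?_⟩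
    · rw [bits_length, ← hx, bits_length]; exact hw
    · simp only [unpair_pairBits, ha, unbits_bits]
      exact (hV' _).1 ((bits_mem_lang).2 hRw)
  · rintro ⟨y, hy, hVy⟩
    simp only [unpair_pairBits] at hVy
    cases hx : unbits α x with
    | none => rw [hx] at hVy; exact absurd hVy hnil
    | some a =>
      rw [hx] at hVy
      cases hy' : unbits β y with
      | none => rw [hy'] at hVy; exact absurd hVy hnil
      | some b =>
        rw [hy'] at hVy
        simp only at hVy
        have h1 := (bits_mem_lang).1 ((hV' _).2 hVy)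
        refine ⟨a, rfl, (h a).2 ⟨b, ?_, h1⟩⟩
        have e1 := bits_of_unbits hx
        have e2 := bits_of_unbits hy'
        rw [← bits_length b, e2, ← bits_length a, e1]
        exact hy

section

variable {G : Type*} [Group G] {n : ℕ} (g : Fin n → G)

theorem exists_selW (ws : List (List (Fin n × Bool))) : ∀ b : List Bool,
    ∃ b' : List Bool, b'.length = ws.length ∧ selW b' ws = selW b ws := by
  induction ws with
  | nil => intro b; exact ⟨[], rfl, by simp [selW]⟩
  | cons w ws ih =>
    intro b
    cases b with
    | nil =>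
      obtain ⟨b', h1, h2⟩ := ih []
      refine ⟨false :: b', by simp [h1], ?_⟩
      have h3 : selW (false :: b') (w :: ws) = selW b' ws := by simp [selW]
      rw [h3, h2]
      simp [selW]
    | cons c b =>
      obtain ⟨b', h1, h2⟩ := ih b
      refine ⟨c :: b', by simp [h1], ?_⟩
      have h3 : ∀ b, selW (c :: b) (w :: ws) = (if c then w else []) ++ selW b ws := by
        intro b; simp [selW]
      rw [h3, h3, h2]

/-- If the word problem is in `P` then the subset sum problem is in `NP`. -/
theorem inNPP_of_wp (h : InPP (fun w : List (Fin n × Bool) => wval g w = 1)) :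
    InNPP (SubsetSum g) := by
  have hw : Poly (fun p : (List (List (Fin n × Bool)) × List (Fin n × Bool)) × List Bool =>
      selW p.2 p.1.1 ++ winv p.1.2) := by
    refine Poly.append ?_ (poly_winv (Poly.snd (Poly.fst Poly.id)))
    refine Poly.flatMap (F := fun _ (q : Bool × List (Fin n × Bool)) =>
      if q.1 then q.2 else []) (Poly.zip (Poly.snd Poly.id) (Poly.fst (Poly.fst Poly.id))) ?_
    exact (Poly.cond (Poly.fst (Poly.snd Poly.id)) (Poly.snd (Poly.snd Poly.id))
      (Poly.const [])).congr fun q => by cases q.2.1 <;> rfl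
  refine inNPP_of_inPP (R := fun w : List (Fin n × Bool) => wval g w = 1) h hw
    (Polynomial.C 4 * Polynomial.X + Polynomial.C 1) fun I => ?_
  rw [subsetSum_iff]
  constructor
  · rintro ⟨b, hb, h⟩
    refine ⟨b, ?_, h⟩
    have e1 := sz_listBool_le b
    have e2 := length_lt_sz I.1
    have e3 : sz I = sz I.1 + sz I.2 + 1 := sz_pair _ _
    simp only [Polynomial.eval_add, Polynomial.eval_mul, Polynomial.eval_C, Polynomial.eval_X]
    omega
  · rintro ⟨b, -, h⟩
    obtain ⟨b', h1, h2⟩ := exists_selW I.1 b
    exact ⟨b', h1, by rw [h2]; exact h⟩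

/-- Substitution of words for letters. -/
def sbw {m : ℕ} (W : Fin m → List (Fin n × Bool)) (w : List (Fin m × Bool)) :
    List (Fin n × Bool) := w.flatMap fun l => if l.2 then W l.1 else winv (W l.1)

theorem wval_sbw {m : ℕ} (h : Fin m → G) (W : Fin m → List (Fin n × Bool))
    (hW : ∀ j, wval g (W j) = h j) (w : List (Fin m × Bool)) : wval g (sbw W w) = wval h w := by
  induction w with
  | nil => rfl
  | cons l w ih =>
    have h1 : sbw W (l :: w) = (if l.2 then W l.1 else winv (W l.1)) ++ sbw W w := by simp [sbw]
    have h2 : wval h (l :: w) = lval h l * wval h w := by simp [wval]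
    rw [h1, wval_append, ih, h2]
    congr 1
    obtain ⟨j, b⟩ := l
    cases b <;> simp [lval, hW, wval_winv]

/-- Hardness passes to overgroups. -/
theorem hardI_sub {m : ℕ} (h : Fin m → G) (W : Fin m → List (Fin n × Bool))
    (hW : ∀ j, wval g (W j) = h j) (hh : HardI (SubsetSum h)) : HardI (SubsetSum g) := by
  have hs : Poly (sbw W) := by
    refine Poly.flatMap (F := fun _ (l : Fin m × Bool) => if l.2 then W l.1 else winv (W l.1))
      Poly.id ?_
    exact (CL.polyOfFintype (fun l : Fin m × Bool =>
      if l.2 then W l.1 else winv (W l.1))).comp (Poly.snd Poly.id)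
  refine hh.trans (f := fun I : List (List (Fin m × Bool)) × List (Fin m × Bool) =>
    (I.1.map (sbw W), sbw W I.2)) ?_ fun I => ?_
  · exact Poly.pair (Poly.map (F := fun _ w => sbw W w) (Poly.fst Poly.id)
      (hs.comp (Poly.snd Poly.id))) (hs.comp (Poly.snd Poly.id))
  · rw [subsetSum_iff', subsetSum_iff']
    simp only [List.length_map]
    refine exists_congr fun b => and_congr_right fun _ => ?_
    have key : wval g (selI b (I.1.map (sbw W))).flatten = wval h (selI b I.1).flatten := by
      rw [selI_map]
      induction selI b I.1 with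
      | nil => rfl
      | cons x L ih =>
        rw [List.map_cons, List.flatten_cons, List.flatten_cons, wval_append, wval_append, ih,
          wval_sbw g h W hW]
    rw [key, wval_sbw g h W hW]

theorem subsetSum_coe (H : Subgroup G) {m : ℕ} (h : Fin m → H)
    (I : List (List (Fin m × Bool)) × List (Fin m × Bool)) :
    SubsetSum h I ↔ SubsetSum (fun j => (h j : G)) I := by
  rw [subsetSum_iff', subsetSum_iff']
  refine exists_congr fun b => and_congr_right fun _ => ?_
  rw [wval_map h (fun j => (h j : G)) H.subtype (fun _ => rfl),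
    wval_map h (fun j => (h j : G)) H.subtype (fun _ => rfl)]
  exact (H.subtype_injective.eq_iff).symm

/-- The subset sum problem of a group with a finitely generated subgroup that is
nilpotent-by-abelian but not virtually nilpotent. -/
theorem hardI_of_subgroup (hg : Subgroup.closure (Set.range g) = ⊤) (H : Subgroup G)
    (hfg : H.FG) (hn : Group.IsNilpotent (commutator H))
    (hnot : ¬ ∃ K : Subgroup H, K.FiniteIndex ∧ Group.IsNilpotent K) :
    HardI (SubsetSum g) := by
  obtain ⟨c, hc⟩ := (Subgroup.isNilpotent_iff_lowerCentralSeries _).1 hn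
  have hfg' : Group.FG H := (Group.fg_iff_subgroup_fg H).2 hfg
  obtain ⟨S, hS⟩ := (Group.fg_iff.1 hfg')
  obtain ⟨hS1, hS2⟩ := hS
  have hfin : Finite S := hS2
  obtain ⟨m, e⟩ : ∃ m, Nonempty (Fin m ≃ S) := ⟨Nat.card S, ⟨(Finite.equivFin S).symm⟩⟩
  obtain ⟨e⟩ := e
  set h : Fin m → H := fun j => (e j : H) with hh
  have hr : Set.range h = S := by
    ext x
    constructor
    · rintro ⟨j, rfl⟩; exact (e j).2
    · intro hx; exact ⟨e.symm ⟨x, hx⟩, by simp [hh]⟩
  have h1 : HardI (SubsetSum h) := hardI_of_lcs hc (by rw [hr]; exact hS1) hnot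
  have h2 : HardI (SubsetSum fun j => (h j : G)) :=
    h1.trans (f := fun I => I) Poly.id fun I => subsetSum_coe H h I
  choose W hW using fun j => exists_word hg (h j : G)
  exact hardI_sub g _ W hW h2

end

end Pool.Agent.NPC.SSP648
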