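import Pool.Agent.H648R4.PolyC
import Pool.Agent.H648R4.Main

/-!
# Subset sum in groups with a Fitting-by-polycyclic subgroup
-/

namespace Pool.Agent.H648R4

open Subgroup

variable {G : Type*} [Group G]

theorem VNil.of_map {Γ : Type*} [Group Γ] {f : Γ →* G} (hf : Function.Injective f)
    {H : Subgroup Γ} (h : VNil (H.map f)) : VNil H := by
  obtain ⟨K, hK, hKi, hKn⟩ := h
  refine ⟨K.comap f, ?_, ?_, ?_⟩
  · intro x hx
    obtain ⟨y, hy, hyx⟩ := hK hx
    rwa [← hf hyx]
  · rw [relIndex_comap]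
    exact hKi
  · obtain ⟨n, hn⟩ := (isNilpotent_iff_lowerCentralSeries _).1 hKn
    refine (isNilpotent_iff_lowerCentralSeries _).2 ⟨n, ?_⟩
    rw [← Subgroup.map_eq_bot_iff_of_injective _ hf, map_lowerCentralSeries, eq_bot_iff, ← hn]
    exact lowerCentralSeries_mono n (map_comap_le f K)

theorem nilp_commutator {A : Subgroup G} (h : Group.IsNilpotent (⁅A, A⁆ : Subgroup G)) :
    Group.IsNilpotent (_root_.commutator A) := by
  obtain ⟨n, hn⟩ := (isNilpotent_iff_lowerCentralSeries _).1 h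
  refine (isNilpotent_iff_lowerCentralSeries _).2 ⟨n, ?_⟩
  rw [← Subgroup.map_eq_bot_iff_of_injective _ A.subtype_injective, map_lowerCentralSeries,
    map_subtype_commutator, hn]

theorem not_vnil {A : Subgroup G} (h : ¬ VNil A) :
    ¬ ∃ K : Subgroup A, K.FiniteIndex ∧ Group.IsNilpotent K := by
  rintro ⟨K, hKf, hKn⟩
  apply h
  refine ⟨K.map A.subtype, map_subtype_le K, ?_, nilp_map _ hKn⟩
  have h3 : (K.map A.subtype).subgroupOf A = K :=
    comap_map_eq_self_of_injective A.subtype_injective K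
  rw [relIndex, h3]
  exact hKf.index_ne_zero

/-- A finitely generated subgroup that is Fitting-by-(virtually polycyclic) but not virtually
nilpotent contains one that is nilpotent-by-abelian but not virtually nilpotent. -/
theorem exists_good (H : Subgroup G) (hfg : H.FG) (N : Subgroup H) (hNn : N.Normal)
    (hN : ∀ ν ∈ N, Group.IsNilpotent (normalClosure ({ν} : Set H))) (hPC : PC N ⊤)
    (hnot : ¬ ∃ K : Subgroup H, K.FiniteIndex ∧ Group.IsNilpotent K) :
    ∃ A : Subgroup G, A.FG ∧ Group.IsNilpotent (_root_.commutator A) ∧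
      ¬ ∃ K : Subgroup A, K.FiniteIndex ∧ Group.IsNilpotent K := by
  have h1 : (⊤ : Subgroup H).FG := by
    have : Group.FG H := (Group.fg_iff_subgroup_fg H).2 hfg
    exact Group.fg_def.1 this
  have h2 : ¬ VNil (⊤ : Subgroup H) := by
    rintro ⟨K, _, hKi, hKn⟩
    exact hnot ⟨K, ⟨by rwa [relIndex_top_right] at hKi⟩, hKn⟩
  obtain ⟨A, -, hAfg, hAn, hAv⟩ := exists_sub hN hPC ⊤ le_rfl h1 h2
  refine ⟨A.map H.subtype, ?_, nilp_commutator ?_,
    not_vnil fun h => hAv (h.of_map H.subtype_injective)⟩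
  · obtain ⟨F, hF, hFf⟩ := (Subgroup.fg_iff _).1 hAfg
    refine (Subgroup.fg_iff _).2 ⟨H.subtype '' F, ?_, hFf.image _⟩
    rw [← MonoidHom.map_closure, hF]
  · rw [← Subgroup.map_commutator]
    exact nilp_map _ hAn

end Pool.Agent.H648R4
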