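import Pool.Agent.H648R4.Nilp

/-!
# Fitting's theorem
-/

namespace Pool.Agent.H648R4

open Subgroup commutatorElement

variable {G : Type*} [Group G]

/-- The modified lower central series, starting with the whole group. -/
def hs (K : Subgroup G) : ℕ → Subgroup G
  | 0 => ⊤
  | i + 1 => K.lowerCentralSeries i

instance hs_normal (K : Subgroup G) [K.Normal] (i : ℕ) : (hs K i).Normal := by
  cases i with
  | zero => exact inferInstanceAs (⊤ : Subgroup G).Normal
  | succ i => exact inferInstanceAs (K.lowerCentralSeries i).Normal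

theorem hs_succ (K : Subgroup G) [K.Normal] (i : ℕ) : ⁅hs K i, K⁆ ≤ hs K (i + 1) := by
  cases i with
  | zero => exact commutator_le_right _ _
  | succ i => exact le_rfl

theorem fitting_aux (K M : Subgroup G) [K.Normal] [M.Normal] (n : ℕ) :
    (K ⊔ M).lowerCentralSeries n ≤ ⨆ p : {p : ℕ × ℕ // p.1 + p.2 = n + 1},
      hs K p.1.1 ⊓ hs M p.1.2 := by
  induction n with
  | zero =>
    refine sup_le ?_ ?_
    · refine le_trans ?_ (le_iSup _ ⟨(1, 0), rfl⟩)
      exact le_inf le_rfl le_top
    · refine le_trans ?_ (le_iSup _ ⟨(0, 1), rfl⟩)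
      exact le_inf le_top le_rfl
  | succ n ih =>
    rw [Subgroup.lowerCentralSeries_succ]
    refine (commutator_mono ih le_rfl).trans ?_
    rw [commutator_le]
    intro x hx y hy
    set R : Subgroup G := ⨆ p : {p : ℕ × ℕ // p.1 + p.2 = n + 1 + 1}, hs K p.1.1 ⊓ hs M p.1.2
      with hR
    have hRn : R.Normal := by
      have : ∀ p : {p : ℕ × ℕ // p.1 + p.2 = n + 1 + 1}, (hs K p.1.1 ⊓ hs M p.1.2).Normal :=
        fun p => inferInstance
      rw [hR]
      infer_instance
    have hstep : ∀ p : {p : ℕ × ℕ // p.1 + p.2 = n + 1},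
        ⁅hs K p.1.1 ⊓ hs M p.1.2, K ⊔ M⁆ ≤ R := by
      rintro ⟨⟨i, j⟩, hij⟩
      simp only at hij ⊢
      rw [commutator_comm]
      refine (sup_comm_le K M _).trans (sup_le ?_ ?_)
      · refine le_trans ?_ (le_iSup _ ⟨(i + 1, j), by simp only; omega⟩)
        refine le_inf ?_ ?_
        · rw [commutator_comm]
          exact (commutator_mono inf_le_left le_rfl).trans (hs_succ K i)
        · exact (commutator_le_right _ _).trans inf_le_right
      · refine le_trans ?_ (le_iSup _ ⟨(i, j + 1), by simp only; omega⟩)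
        refine le_inf ?_ ?_
        · exact (commutator_le_right _ _).trans inf_le_left
        · rw [commutator_comm]
          exact (commutator_mono inf_le_right le_rfl).trans (hs_succ M j)
    have hmem : ∀ x ∈ (⨆ p : {p : ℕ × ℕ // p.1 + p.2 = n + 1}, hs K p.1.1 ⊓ hs M p.1.2),
        ∀ y ∈ K ⊔ M, ⁅x, y⁆ ∈ R := by
      intro x hx
      refine Subgroup.iSup_induction _ (C := fun x => ∀ y ∈ K ⊔ M, ⁅x, y⁆ ∈ R) hx ?_ ?_ ?_
      · intro p x hx y hy
        exact hstep p (commutator_mem_commutator hx hy)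
      · intro y _; simp
      · intro a b ha hb y hy
        have h : ⁅a * b, y⁆ = (a * ⁅b, y⁆ * a⁻¹) * ⁅a, y⁆ := by
          simp only [commutatorElement_def]; group
        rw [h]
        exact mul_mem (hRn.conj_mem _ (hb y hy) a) (ha y hy)
    exact hmem x hx y hy

/-- Fitting's theorem. -/
theorem fitting_thm {K M : Subgroup G} [K.Normal] [M.Normal] (hK : Group.IsNilpotent K)
    (hM : Group.IsNilpotent M) : Group.IsNilpotent (K ⊔ M : Subgroup G) := by
  obtain ⟨c, hc⟩ := (isNilpotent_iff_lowerCentralSeries _).1 hK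
  obtain ⟨d, hd⟩ := (isNilpotent_iff_lowerCentralSeries _).1 hM
  refine (isNilpotent_iff_lowerCentralSeries _).2 ⟨c + d + 1, ?_⟩
  rw [eq_bot_iff]
  refine (fitting_aux K M _).trans (iSup_le ?_)
  rintro ⟨⟨i, j⟩, hij⟩
  simp only at hij ⊢
  rcases Nat.lt_or_ge c i with h | h
  · refine inf_le_left.trans ?_
    obtain ⟨i, rfl⟩ := Nat.exists_eq_succ_of_ne_zero (by omega : i ≠ 0)
    rw [← hc]
    exact K.lowerCentralSeries_antitone (by omega)
  · refine inf_le_right.trans ?_
    obtain ⟨j, rfl⟩ := Nat.exists_eq_succ_of_ne_zero (by omega : j ≠ 0)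
    rw [← hd]
    exact M.lowerCentralSeries_antitone (by omega)

end Pool.Agent.H648R4
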