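import Pool.Agent.H648R3.SSP.Red
import Pool.Agent.H648R4.Nilp
import Pool.Agent.H648R4.Collect

/-!
# Lifting the reductions from the metabelian quotient
-/

namespace Pool.Agent.NPC.SSP648

open Pool.Agent.H648R3.SSP Pool.Agent.H648R4 commutatorElement

section defs

variable {n : ℕ} (i : Fin n) (A : List (Fin n × Bool)) (P : ℕ)

/-- The words of the conjugates. -/
def UW : List (List (Fin n × Bool)) := (List.range P).map fun e => bw i A (min e P)

/-- The words of left-normed commutators of weight `s + 1`. -/
def FW : ℕ → List (List (Fin n × Bool))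
  | 0 => UW i A P
  | s + 1 => (UW i A P).flatMap fun x => (FW s).map fun y => x ++ (y ++ (winv x ++ winv y))

/-- Inverses of commutators. -/
def BW : ℕ → List (List (Fin n × Bool))
  | 0 => []
  | s + 1 => BW s ++ (FW i A P (s + 1)).map winv

/-- The slack for commutators. -/
def SL (m R : ℕ) : List (List (Fin n × Bool)) := (List.range R).flatMap fun _ => BW i A P m

/-- The slack for squares. -/
def SQ (R : ℕ) : List (List (Fin n × Bool)) :=
  (List.range R).flatMap fun _ => (UW i A P).map fun w => winv (w ++ w)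

end defs

section polys

variable {α : Type} [TEnc α] {n : ℕ}

theorem poly_winv {w : α → List (Fin n × Bool)} (hw : Poly w) : Poly (fun a => winv (w a)) := by
  refine Poly.reverse (Poly.map (F := fun _ (l : Fin n × Bool) => (l.1, !l.2)) hw ?_)
  exact Poly.pair (Poly.fst (Poly.snd Poly.id)) (Poly.not (Poly.snd (Poly.snd Poly.id)))

theorem poly_UW (i : Fin n) (A : List (Fin n × Bool)) {P : α → ℕ} (hP : UPoly P) :
    Poly (fun a => UW i A (P a)) := by
  refine Poly.map (F := fun (a : α) (e : ℕ) => bw i A (min e (P a))) (UPoly.range hP) ?_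
  exact poly_bw (Poly.snd Poly.id) (UPoly.comp hP (Poly.fst Poly.id)) i A

theorem poly_FW (i : Fin n) (A : List (Fin n × Bool)) {P : α → ℕ} (hP : UPoly P) (s : ℕ) :
    Poly (fun a => FW i A (P a) s) := by
  induction s with
  | zero => exact poly_UW i A hP
  | succ s ih =>
    refine Poly.flatMap (F := fun (a : α) (x : List (Fin n × Bool)) =>
      (FW i A (P a) s).map fun y => x ++ (y ++ (winv x ++ winv y))) (poly_UW i A hP) ?_
    refine Poly.map (F := fun (p : α × List (Fin n × Bool)) (y : List (Fin n × Bool)) =>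
      p.2 ++ (y ++ (winv p.2 ++ winv y))) (ih.comp (Poly.fst Poly.id)) ?_
    have h1 : Poly (fun q : (α × List (Fin n × Bool)) × List (Fin n × Bool) => q.1.2) :=
      Poly.snd (Poly.fst Poly.id)
    have h2 : Poly (fun q : (α × List (Fin n × Bool)) × List (Fin n × Bool) => q.2) :=
      Poly.snd Poly.id
    exact Poly.append h1 (Poly.append h2 (Poly.append (poly_winv h1) (poly_winv h2)))

theorem poly_BW (i : Fin n) (A : List (Fin n × Bool)) {P : α → ℕ} (hP : UPoly P) (s : ℕ) :
    Poly (fun a => BW i A (P a) s) := by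
  induction s with
  | zero => exact Poly.const []
  | succ s ih =>
    refine Poly.append ih ?_
    exact Poly.map (F := fun _ (w : List (Fin n × Bool)) => winv w) (poly_FW i A hP (s + 1))
      (poly_winv (Poly.snd Poly.id))

theorem poly_SL (i : Fin n) (A : List (Fin n × Bool)) {P R : α → ℕ} (hP : UPoly P)
    (hR : UPoly R) (m : ℕ) : Poly (fun a => SL i A (P a) m (R a)) :=
  Poly.flatMap (F := fun (a : α) (_ : ℕ) => BW i A (P a) m) (UPoly.range hR)
    ((poly_BW i A hP m).comp (Poly.fst Poly.id))

theorem poly_SQ (i : Fin n) (A : List (Fin n × Bool)) {P R : α → ℕ} (hP : UPoly P)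
    (hR : UPoly R) : Poly (fun a => SQ i A (P a) (R a)) := by
  refine Poly.flatMap (F := fun (a : α) (_ : ℕ) => (UW i A (P a)).map fun w => winv (w ++ w))
    (UPoly.range hR) ?_
  refine Poly.map (F := fun (_ : α × ℕ) (w : List (Fin n × Bool)) => winv (w ++ w))
    ((poly_UW i A hP).comp (Poly.fst Poly.id)) ?_
  exact poly_winv (Poly.append (Poly.snd Poly.id) (Poly.snd Poly.id))

theorem upow {m : α → ℕ} (hm : UPoly m) (c : ℕ) : UPoly (fun a => m a ^ c) := by
  induction c with
  | zero => simpa using UPoly.const 1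
  | succ c ih => simpa only [pow_succ] using UPoly.mul ih hm

end polys

section values

variable {G : Type*} [Group G] {n : ℕ} (g : Fin n → G) (i : Fin n) (A : List (Fin n × Bool))

/-- The conjugates. -/
def uu (p : ℕ) : G := g i ^ p * wval g A * (g i ^ p)⁻¹

theorem wval_bw' (p : ℕ) : wval g (bw i A p) = uu g i A p := by
  rw [bw, wval_append, wval_append, wval_replicate, wval_replicate', uu]

theorem wval_lw' (l : List ℕ) : wval g (lw i A l) = (l.map (uu g i A)).prod := by
  induction l with
  | nil => rfl
  | cons p l ih =>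
    have h : lw i A (p :: l) = bw i A p ++ lw i A l := by simp [lw]
    rw [h, wval_append, ih, wval_bw', List.map_cons, List.prod_cons]

/-- The set of the first conjugates. -/
def US (P : ℕ) : Set G := {z | ∃ p < P, z = uu g i A p}

theorem UW_val (P : ℕ) : ∀ z ∈ US g i A P, ∃ w ∈ UW i A P, wval g w = z := by
  rintro _ ⟨p, hp, rfl⟩
  refine ⟨bw i A p, ?_, wval_bw' g i A p⟩
  rw [UW, List.mem_map]
  exact ⟨p, List.mem_range.2 hp, by rw [min_eq_left hp.le]⟩

theorem FW_val (P : ℕ) (s : ℕ) : ∀ z ∈ F (US g i A P) s, ∃ w ∈ FW i A P s, wval g w = z := by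
  induction s with
  | zero => exact UW_val g i A P
  | succ s ih =>
    rintro _ ⟨x, hx, y, hy, rfl⟩
    obtain ⟨wx, hwx, rfl⟩ := UW_val g i A P x hx
    obtain ⟨wy, hwy, rfl⟩ := ih y hy
    refine ⟨wx ++ (wy ++ (winv wx ++ winv wy)), ?_, ?_⟩
    · rw [FW, List.mem_flatMap]
      exact ⟨wx, hwx, List.mem_map.2 ⟨wy, hwy, rfl⟩⟩
    · rw [wval_append, wval_append, wval_append, wval_winv, wval_winv, commutatorElement_def]
      group

theorem BW_val (P m : ℕ) : ∀ s, 1 ≤ s → s ≤ m → ∀ z ∈ F (US g i A P) s,
    ∃ w ∈ BW i A P m, wval g w = z⁻¹ := by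
  induction m with
  | zero => intro s h1 h2; omega
  | succ m ih =>
    intro s h1 h2 z hz
    rcases Nat.lt_or_ge m s with h | h
    · have : s = m + 1 := by omega
      subst this
      obtain ⟨w, hw, rfl⟩ := FW_val g i A P _ z hz
      refine ⟨winv w, ?_, wval_winv g w⟩
      rw [BW, List.mem_append]
      exact Or.inr (List.mem_map.2 ⟨w, hw, rfl⟩)
    · obtain ⟨w, hw, h3⟩ := ih s h1 h z hz
      refine ⟨w, ?_, h3⟩
      rw [BW, List.mem_append]
      exact Or.inl hw

theorem wval_flatten_one (L : List (List (Fin n × Bool))) (h : ∀ w ∈ L, wval g w = 1) :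
    wval g L.flatten = 1 := by
  induction L with
  | nil => rfl
  | cons w L ih =>
    rw [List.flatten_cons, wval_append, h w (by simp), ih fun w hw => h w
      (List.mem_cons_of_mem _ hw), one_mul]

theorem selI_false {α : Type} (L : List α) : selI (List.replicate L.length false) L = [] := by
  induction L with
  | nil => rfl
  | cons x L ih =>
    rw [List.length_cons, List.replicate_succ]
    simp only [selI, List.zip_cons_cons, List.filter_cons, Bool.false_eq_true, if_false]
    exact ih

theorem selI_one {α : Type} (L : List α) (w : α) (hw : w ∈ L) :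
    ∃ b : List Bool, b.length = L.length ∧ selI b L = [w] := by
  obtain ⟨l1, l2, rfl⟩ := List.append_of_mem hw
  refine ⟨List.replicate l1.length false ++ (true :: List.replicate l2.length false), by simp, ?_⟩
  rw [selI_append _ _ _ _ (by simp), selI_false, List.nil_append]
  have h := selI_false l2
  simp only [selI] at h
  simp only [selI, List.zip_cons_cons, List.filter_cons, if_true, List.map_cons, h]

theorem sel_block (blk : List (List (Fin n × Bool))) (R : ℕ) : ∀ zs : List G, zs.length ≤ R →
    (∀ z ∈ zs, ∃ w ∈ blk, wval g w = z) →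
    ∃ b : List Bool, b.length = ((List.range R).flatMap fun _ => blk).length ∧
      wval g (selI b ((List.range R).flatMap fun _ => blk)).flatten = zs.prod := by
  have hrep : ∀ R, ((List.range R).flatMap fun _ => blk) = (List.replicate R blk).flatten := by
    intro R
    rw [List.flatMap, List.map_const', List.length_range]
  simp only [hrep]
  induction R with
  | zero =>
    intro zs hz _
    have : zs = [] := List.length_eq_zero_iff.1 (by omega)
    subst this
    exact ⟨[], rfl, rfl⟩
  | succ R ih =>
    intro zs hz hzs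
    rw [List.replicate_succ, List.flatten_cons]
    cases zs with
    | nil =>
      obtain ⟨b, hb, h⟩ := ih [] (by simp) (by simp)
      refine ⟨List.replicate blk.length false ++ b, by simp [hb], ?_⟩
      rw [selI_append _ _ _ _ (by simp), selI_false, List.nil_append, h]
    | cons z zs =>
      obtain ⟨b, hb, h⟩ := ih zs (by simpa using hz) fun z hz => hzs z (List.mem_cons_of_mem _ hz)
      obtain ⟨w, hw, hwz⟩ := hzs z (by simp)
      obtain ⟨b1, hb1, h1⟩ := selI_one blk w hw
      refine ⟨b1 ++ b, by simp [hb, hb1], ?_⟩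
      rw [selI_append _ _ _ _ hb1, h1, List.flatten_append, wval_append, h, List.prod_cons,
        ← hwz]
      simp

variable {i A}

/-- Correction of a permuted product. -/
theorem sel_SL {c : ℕ} {P : ℕ} (hc : ∀ z ∈ F (US g i A P) c, z = 1) (h2c : 2 ≤ c)
    (X Y : List ℕ) (hXY : X.Perm Y) (hP : ∀ p ∈ Y, p < P) {R : ℕ}
    (hR : 3 * (Y.length + 1) ^ c ≤ R) :
    ∃ b : List Bool, b.length = (SL i A P (c - 1) R).length ∧
      wval g (selI b (SL i A P (c - 1) R)).flatten * (X.map (uu g i A)).prod =
        (Y.map (uu g i A)).prod := by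
  obtain ⟨zs, h1, h2, h3⟩ := sort_poly hc h2c (X.map (uu g i A)) (Y.map (uu g i A))
    (hXY.map _) (fun u hu => by
      obtain ⟨p, hp, rfl⟩ := List.mem_map.1 hu
      exact ⟨p, hP p hp, rfl⟩)
  rw [List.length_map] at h1
  obtain ⟨b, hb, h⟩ := sel_block g (BW i A P (c - 1)) R ((zs.map fun z => z⁻¹).reverse)
    (by rw [List.length_reverse, List.length_map]; omega) (fun z hz => by
      rw [List.mem_reverse, List.mem_map] at hz
      obtain ⟨y, hy, rfl⟩ := hz
      obtain ⟨s, hs1, hs2, hs3⟩ := h2 y hy
      exact BW_val g i A P (c - 1) s hs1 (by omega) y hs3)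
  refine ⟨b, hb, ?_⟩
  rw [SL, h, h3, ← List.prod_inv_reverse]
  group

/-- Doubled lists. -/
def dbl (D : List ℕ) : List ℕ := D.flatMap fun p => [p, p]

theorem sel_SQ {P : ℕ} (D : List ℕ) (hP : ∀ p ∈ D, p < P) {R : ℕ} (hR : D.length ≤ R) :
    ∃ b : List Bool, b.length = (SQ i A P R).length ∧
      wval g (selI b (SQ i A P R)).flatten = (((dbl D).map (uu g i A)).prod)⁻¹ := by
  obtain ⟨b, hb, h⟩ := sel_block g ((UW i A P).map fun w => winv (w ++ w)) R
    ((D.map fun p => (uu g i A p * uu g i A p)⁻¹).reverse)
    (by rw [List.length_reverse, List.length_map]; omega) (fun z hz => by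
      rw [List.mem_reverse, List.mem_map] at hz
      obtain ⟨p, hp, rfl⟩ := hz
      obtain ⟨w, hw, h1⟩ := UW_val g i A P _ ⟨p, hP p hp, rfl⟩
      refine ⟨winv (w ++ w), List.mem_map.2 ⟨w, hw, rfl⟩, ?_⟩
      rw [wval_winv, wval_append, h1])
  refine ⟨b, hb, ?_⟩
  rw [SQ, h]
  have h1 : (D.map fun p => (uu g i A p * uu g i A p)⁻¹) =
      (D.map fun p => uu g i A p * uu g i A p).map fun z => z⁻¹ := by
    rw [List.map_map]; rfl
  rw [h1, ← List.prod_inv_reverse]
  congr 1
  clear hP hR hb h h1
  induction D with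
  | nil => rfl
  | cons p D ih =>
    have h : dbl (p :: D) = p :: p :: dbl D := rfl
    rw [h, List.map_cons, List.map_cons, List.map_cons, List.prod_cons, List.prod_cons,
      List.prod_cons, ih, mul_assoc]

end values

section parity

theorem exists_dbl_aux : ∀ (m : ℕ) (Z : List ℕ), Z.length = m → (∀ p, Z.count p % 2 = 0) →
    ∃ D : List ℕ, Z.Perm (dbl D) := by
  intro m
  induction m using Nat.strong_induction_on with
  | _ m ih =>
    intro Z hm hZ
    cases Z with
    | nil => exact ⟨[], by simp [dbl]⟩
    | cons x Z =>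
      have h1 := hZ x
      rw [List.count_cons_self] at h1
      have h2 : 0 < Z.count x := by omega
      obtain ⟨l1, l2, rfl⟩ := List.append_of_mem (List.count_pos_iff.1 h2)
      have h3 : (x :: (l1 ++ x :: l2)).Perm (x :: x :: (l1 ++ l2)) :=
        List.perm_middle.cons x
      obtain ⟨D, hD⟩ := ih (l1 ++ l2).length (by
        rw [← hm]; simp) (l1 ++ l2) rfl (fun p => by
        have h4 := hZ p
        rw [h3.count_eq, List.count_cons, List.count_cons] at h4
        by_cases hx : x = p
        · simp only [hx, beq_self_eq_true, if_true] at h4; omega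
        · simp only [beq_iff_eq, hx, if_false] at h4; omega)
      exact ⟨x :: D, h3.trans ((hD.cons x).cons x)⟩

theorem exists_dbl (X Y : List ℕ) (hY : ∀ p, Y.count p ≤ 1)
    (h : ∀ p, X.count p % 2 = Y.count p % 2) : ∃ D : List ℕ, X.Perm (dbl D ++ Y) := by
  have h1 : (Y ++ X.diff Y).Perm X := by
    refine List.subperm_append_diff_self_of_count_le fun p hp => ?_
    have h2 := hY p
    have h3 := h p
    have h4 : 0 < Y.count p := List.count_pos_iff.2 hp
    omega
  obtain ⟨D, hD⟩ := exists_dbl_aux _ (X.diff Y) rfl (fun p => by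
    have h2 := h1.count_eq p
    rw [List.count_append] at h2
    have h3 := h p
    omega)
  exact ⟨D, h1.symm.trans ((hD.append_left Y).trans List.perm_append_comm)⟩

theorem sum_single_apply (X : List ℕ) (p : ℕ) :
    ((X.map fun q => Finsupp.single q (1 : ZMod 2)).sum : ℕ →₀ ZMod 2) p = (X.count p : ZMod 2) := by
  induction X with
  | nil => simp
  | cons x X ih =>
    rw [List.map_cons, List.sum_cons, Finsupp.add_apply, ih, List.count_cons, Finsupp.single_apply]
    by_cases h : x = p <;> simp [h, add_comm]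

end parity

section soundness

variable {G Q : Type*} [Group G] [Group Q] {n : ℕ} (g : Fin n → G) (gb : Fin n → Q) (π : G →* Q)
  (hπ : ∀ j, π (g j) = gb j)

include hπ

theorem wval_map (w : List (Fin n × Bool)) : wval gb w = π (wval g w) := by
  induction w with
  | nil => simp
  | cons l w ih =>
    have h1 : wval gb (l :: w) = lval gb l * wval gb w := by simp [wval]
    have h2 : wval g (l :: w) = lval g l * wval g w := by simp [wval]
    rw [h1, h2, map_mul, ← ih]
    congr 1
    obtain ⟨j, b⟩ := l
    cases b <;> simp [lval, hπ]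

theorem sound (S L : List (List (Fin n × Bool))) (w : List (Fin n × Bool))
    (hS : ∀ x ∈ S, wval gb x = 1) (h : SubsetSum g (S ++ L, w)) : SubsetSum gb (L, w) := by
  rw [subsetSum_iff'] at h ⊢
  obtain ⟨b, hb, h⟩ := h
  simp only [List.length_append] at hb h
  refine ⟨b.drop S.length, by rw [List.length_drop]; simp only; omega, ?_⟩
  have h1 := congrArg π h
  rw [← wval_map g gb π hπ, ← wval_map g gb π hπ, ← List.take_append_drop S.length b,
    selI_append _ _ _ _ (by rw [List.length_take]; omega), List.flatten_append, wval_append,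
    wval_flatten_one gb _ (fun x hx => hS x (mem_selI hx)), one_mul] at h1
  exact h1

end soundness

section trivial

variable {Q : Type*} [Group Q] [Metab Q] {n : ℕ} {g : Fin n → Q} {i : Fin n}
  {A : List (Fin n × Bool)} (hA : wval g A ∈ commutator Q)

include hA

omit [Metab Q] in
theorem uu_mem (p : ℕ) : uu g i A p ∈ commutator Q :=
  (inferInstance : (commutator Q).Normal).conj_mem _ hA _

omit [Metab Q] in
theorem UW_mem (P : ℕ) : ∀ w ∈ UW i A P, wval g w ∈ commutator Q := by
  intro w hw
  obtain ⟨e, _, rfl⟩ := List.mem_map.1 hw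
  rw [wval_bw']
  exact (inferInstance : (commutator Q).Normal).conj_mem _ hA _

theorem FW_one (P s : ℕ) : (∀ w ∈ FW i A P s, wval g w ∈ commutator Q) ∧
    ∀ w ∈ FW i A P (s + 1), wval g w = 1 := by
  have key : ∀ s, (∀ w ∈ FW i A P s, wval g w ∈ commutator Q) →
      ∀ w ∈ FW i A P (s + 1), wval g w = 1 := by
    intro s h w hw
    rw [FW, List.mem_flatMap] at hw
    obtain ⟨x, hx, hw⟩ := hw
    obtain ⟨y, hy, rfl⟩ := List.mem_map.1 hw
    rw [wval_append, wval_append, wval_append, wval_winv, wval_winv, ← mul_assoc,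
      Metab.comm _ (UW_mem hA P x hx) _ (h y hy)]
    group
  induction s with
  | zero => exact ⟨UW_mem hA P, key 0 (UW_mem hA P)⟩
  | succ s ih =>
    have h1 : ∀ w ∈ FW i A P (s + 1), wval g w ∈ commutator Q := fun w hw => by
      rw [ih.2 w hw]; exact Subgroup.one_mem _
    exact ⟨h1, key _ h1⟩

theorem BW_one (P m : ℕ) : ∀ w ∈ BW i A P m, wval g w = 1 := by
  induction m with
  | zero => intro w hw; simp [BW] at hw
  | succ m ih =>
    intro w hw
    rw [BW, List.mem_append] at hw
    rcases hw with hw | hw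
    · exact ih w hw
    · obtain ⟨x, hx, rfl⟩ := List.mem_map.1 hw
      rw [wval_winv, (FW_one hA P m).2 x hx, inv_one]

theorem SL_one (P m R : ℕ) : ∀ w ∈ SL i A P m R, wval g w = 1 := by
  intro w hw
  obtain ⟨_, _, hw⟩ := List.mem_flatMap.1 hw
  exact BW_one hA P m w hw

end trivial

end Pool.Agent.NPC.SSP648
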