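import Mathlib

/-!
# Cyclic extensions, finite index, and finite generation
-/

namespace Pool.Agent.H648R4

open Subgroup commutatorElement

variable {G : Type*} [Group G]

/-- Conjugation by `x` and by its inverse preserve `P`. -/
def Nz (P : Subgroup G) (x : G) : Prop := ∀ y ∈ P, x * y * x⁻¹ ∈ P ∧ x⁻¹ * y * x ∈ P

theorem Nz.of_mem {P : Subgroup G} {x : G} (hx : x ∈ P) : Nz P x := fun y hy =>
  ⟨P.mul_mem (P.mul_mem hx hy) (P.inv_mem hx), P.mul_mem (P.mul_mem (P.inv_mem hx) hy) hx⟩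

theorem Nz.of_normal (P : Subgroup G) [hP : P.Normal] (x : G) : Nz P x := fun y hy =>
  ⟨hP.conj_mem y hy x, by simpa using hP.conj_mem y hy x⁻¹⟩

theorem Nz.inv {P : Subgroup G} {x : G} (h : Nz P x) : Nz P x⁻¹ := fun y hy => by
  rw [inv_inv]; exact ⟨(h y hy).2, (h y hy).1⟩

theorem Nz.mul {P : Subgroup G} {x y : G} (hx : Nz P x) (hy : Nz P y) : Nz P (x * y) :=
  fun z hz => by
    constructor
    · have := (hx _ (hy z hz).1).1
      rwa [show x * (y * z * y⁻¹) * x⁻¹ = x * y * z * (x * y)⁻¹ by group] at this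
    · have := (hy _ (hx z hz).2).2
      rwa [show y⁻¹ * (x⁻¹ * z * x) * y = (x * y)⁻¹ * z * (x * y) by group] at this

theorem Nz.one (P : Subgroup G) : Nz P 1 := Nz.of_mem P.one_mem

theorem Nz.zpow {P : Subgroup G} {x : G} (h : Nz P x) (k : ℤ) : Nz P (x ^ k) := by
  induction k using Int.induction_on with
  | zero => rw [zpow_zero]; exact Nz.one P
  | succ k ih => rw [zpow_add_one]; exact ih.mul h
  | pred k ih => rw [zpow_sub_one]; exact ih.mul h.inv

theorem Nz.inf {P Q : Subgroup G} {x : G} (h : Nz P x) (h' : Nz Q x) : Nz (P ⊓ Q) x :=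
  fun y hy => ⟨⟨(h y hy.1).1, (h' y hy.2).1⟩, ⟨(h y hy.1).2, (h' y hy.2).2⟩⟩

theorem Nz.closure {s : Set G} {x : G}
    (h : ∀ y ∈ s, x * y * x⁻¹ ∈ closure s ∧ x⁻¹ * y * x ∈ closure s) : Nz (closure s) x := by
  intro y hy
  induction hy using closure_induction with
  | mem y hy => exact h y hy
  | one => simp
  | mul a b _ _ ha hb =>
    refine ⟨?_, ?_⟩
    · rw [show x * (a * b) * x⁻¹ = (x * a * x⁻¹) * (x * b * x⁻¹) by group]
      exact mul_mem ha.1 hb.1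
    · rw [show x⁻¹ * (a * b) * x = (x⁻¹ * a * x) * (x⁻¹ * b * x) by group]
      exact mul_mem ha.2 hb.2
  | inv a _ ha =>
    refine ⟨?_, ?_⟩
    · rw [show x * a⁻¹ * x⁻¹ = (x * a * x⁻¹)⁻¹ by group]
      exact inv_mem ha.1
    · rw [show x⁻¹ * a⁻¹ * x = (x⁻¹ * a * x)⁻¹ by group]
      exact inv_mem ha.2

/-- Members of `P ⟨x⟩`. -/
theorem mem_sup_cyc {P : Subgroup G} {x : G} (hx : Nz P x) (y : G) :
    y ∈ P ⊔ zpowers x ↔ ∃ p ∈ P, ∃ k : ℤ, y = p * x ^ k := by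
  constructor
  · intro hy
    let K : Subgroup G :=
      { carrier := {y | ∃ p ∈ P, ∃ k : ℤ, y = p * x ^ k}
        mul_mem' := by
          rintro _ _ ⟨p, hp, k, rfl⟩ ⟨q, hq, l, rfl⟩
          refine ⟨p * (x ^ k * q * (x ^ k)⁻¹), P.mul_mem hp (hx.zpow k q hq).1, k + l, ?_⟩
          rw [zpow_add]; group
        one_mem' := ⟨1, P.one_mem, 0, by simp⟩
        inv_mem' := by
          rintro _ ⟨p, hp, k, rfl⟩
          refine ⟨(x ^ k)⁻¹ * p⁻¹ * x ^ k, (hx.zpow k _ (P.inv_mem hp)).2, -k, ?_⟩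
          rw [zpow_neg]; group }
    have h1 : P ⊔ zpowers x ≤ K := by
      refine sup_le (fun p hp => ⟨p, hp, 0, by simp⟩) ?_
      rw [zpowers_le]
      exact ⟨1, P.one_mem, 1, by simp⟩
    exact h1 hy
  · rintro ⟨p, hp, k, rfl⟩
    exact mul_mem (mem_sup_left hp) (zpow_mem (mem_sup_right (mem_zpowers x)) k)

theorem comm_cyc {P : Subgroup G} {x : G} (hx : Nz P x) :
    ⁅P ⊔ zpowers x, P ⊔ zpowers x⁆ ≤ P := by
  rw [commutator_le]
  intro a ha b hb
  obtain ⟨p, hp, k, rfl⟩ := (mem_sup_cyc hx a).1 ha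
  obtain ⟨q, hq, l, rfl⟩ := (mem_sup_cyc hx b).1 hb
  have e : ⁅p * x ^ k, q * x ^ l⁆ =
      p * (x ^ k * q * (x ^ k)⁻¹) * (x ^ l * p⁻¹ * (x ^ l)⁻¹) * q⁻¹ := by
    rw [commutatorElement_def]
    group
  rw [e]
  exact mul_mem (mul_mem (mul_mem hp (hx.zpow k q hq).1) (hx.zpow l _ (inv_mem hp)).1)
    (inv_mem hq)

theorem nz_sup {P : Subgroup G} {x y : G} (hx : Nz P x) (hy : y ∈ P ⊔ zpowers x) : Nz P y := by
  obtain ⟨p, hp, k, rfl⟩ := (mem_sup_cyc hx y).1 hy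
  exact (Nz.of_mem hp).mul (hx.zpow k)

/-- A subgroup of `P ⟨x⟩` is generated modulo `P` by one element. -/
theorem split {P : Subgroup G} {x : G} (hx : Nz P x) {X : Subgroup G}
    (hX : X ≤ P ⊔ zpowers x) : ∃ t ∈ X, ∀ y ∈ X, ∃ k : ℤ, y * t ^ k ∈ X ⊓ P := by
  let E : AddSubgroup ℤ :=
    { carrier := {k | ∃ p ∈ P, p * x ^ k ∈ X}
      add_mem' := by
        rintro k l ⟨p, hp, h⟩ ⟨q, hq, h'⟩
        refine ⟨p * (x ^ k * q * (x ^ k)⁻¹), P.mul_mem hp (hx.zpow k q hq).1, ?_⟩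
        have := X.mul_mem h h'
        rwa [show p * (x ^ k * q * (x ^ k)⁻¹) * x ^ (k + l) = p * x ^ k * (q * x ^ l) by
          rw [zpow_add]; group]
      zero_mem' := ⟨1, P.one_mem, by simp⟩
      neg_mem' := by
        rintro k ⟨p, hp, h⟩
        refine ⟨(x ^ k)⁻¹ * p⁻¹ * x ^ k, (hx.zpow k _ (P.inv_mem hp)).2, ?_⟩
        have := X.inv_mem h
        rwa [show (x ^ k)⁻¹ * p⁻¹ * x ^ k * x ^ (-k) = (p * x ^ k)⁻¹ by rw [zpow_neg]; group] }
  obtain ⟨e, he⟩ := Int.subgroup_cyclic E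
  have heE : e ∈ E := by rw [he]; exact AddSubgroup.subset_closure rfl
  obtain ⟨p, hp, hpe⟩ := heE
  refine ⟨p * x ^ e, hpe, fun y hy => ?_⟩
  obtain ⟨q, hq, k, rfl⟩ := (mem_sup_cyc hx y).1 (hX hy)
  have hk : k ∈ E := ⟨q, hq, hy⟩
  rw [he, AddSubgroup.mem_closure_singleton] at hk
  obtain ⟨j, hj⟩ := hk
  refine ⟨-j, X.mul_mem hy (X.zpow_mem hpe _), ?_⟩
  have h1 : ∀ j : ℤ, ∃ r ∈ P, (p * x ^ e) ^ j = r * x ^ (e * j) := by
    intro j
    induction j using Int.induction_on with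
    | zero => exact ⟨1, P.one_mem, by simp⟩
    | succ j ih =>
      obtain ⟨r, hr, h⟩ := ih
      refine ⟨r * (x ^ (e * j) * p * (x ^ (e * j))⁻¹), P.mul_mem hr (hx.zpow _ p hp).1, ?_⟩
      rw [zpow_add_one, h, mul_add, mul_one, zpow_add]
      group
    | pred j ih =>
      obtain ⟨r, hr, h⟩ := ih
      refine ⟨r * (x ^ (e * -j - e) * p⁻¹ * (x ^ (e * -j - e))⁻¹),
        P.mul_mem hr (hx.zpow _ _ (P.inv_mem hp)).1, ?_⟩
      rw [zpow_sub_one, h, mul_sub, mul_one, zpow_sub x (e * -j) e]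
      group
  obtain ⟨r, hr, h⟩ := h1 (-j)
  rw [h]
  have h2 : e * -j = -k := by
    rw [← hj, smul_eq_mul]; ring
  rw [h2]
  have h3 := P.mul_mem hq (hx.zpow k r hr).1
  rwa [show q * x ^ k * (r * x ^ (-k)) = q * (x ^ k * r * (x ^ k)⁻¹) by rw [zpow_neg]; group]

/-- `T` is reached from `N` by finitely many cyclic extensions and extensions of finite index. -/
inductive PC (N : Subgroup G) : Subgroup G → Prop
  | base : PC N N
  | cyc (P : Subgroup G) (x : G) : PC N P → (∀ y ∈ P, x * y * x⁻¹ ∈ P ∧ x⁻¹ * y * x ∈ P) →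
      PC N (P ⊔ Subgroup.zpowers x)
  | fin (P T : Subgroup G) : PC N P → P ≤ T → P.relIndex T ≠ 0 → PC N T

theorem PC.le {N T : Subgroup G} (h : PC N T) : N ≤ T := by
  induction h with
  | base => exact le_rfl
  | cyc P x _ _ ih => exact ih.trans le_sup_left
  | fin P T _ hPT _ ih => exact ih.trans hPT

/-- Finitely many coset representatives. -/
theorem exists_reps {A B : Subgroup G} (h : A.relIndex B ≠ 0) :
    ∃ F : Set G, F.Finite ∧ F ⊆ B ∧ ∀ y ∈ B, ∃ r ∈ F, r⁻¹ * y ∈ A := by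
  have hfin : Finite (B ⧸ A.subgroupOf B) := by
    have h1 : (A.subgroupOf B).index ≠ 0 := h
    have : (A.subgroupOf B).FiniteIndex := ⟨h1⟩
    infer_instance
  refine ⟨Set.range fun q : B ⧸ A.subgroupOf B => ((Quotient.out q : B) : G), Set.finite_range _,
    ?_, fun y hy => ?_⟩
  · rintro _ ⟨q, rfl⟩; exact SetLike.coe_mem _
  · refine ⟨_, ⟨(QuotientGroup.mk (⟨y, hy⟩ : B) : B ⧸ A.subgroupOf B), rfl⟩, ?_⟩
    have h2 := QuotientGroup.mk_out_eq_mul (A.subgroupOf B) ⟨y, hy⟩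
    obtain ⟨a, ha⟩ := h2
    have h3 := congrArg Subtype.val ha
    simp only [Subgroup.coe_mul] at h3
    beta_reduce
    rw [h3]
    have h4 : ((a : B) : G) ∈ A := mem_subgroupOf.1 a.2
    rw [mul_inv_rev, mul_assoc, inv_mul_cancel, mul_one]
    exact inv_mem h4

theorem noeth {N T : Subgroup G} [N.Normal] (h : PC N T) :
    ∀ X ≤ T, ∃ F : Set G, F.Finite ∧ F ⊆ X ∧ X ≤ closure F ⊔ N := by
  induction h with
  | base => exact fun X hX => ⟨∅, Set.finite_empty, by simp, hX.trans le_sup_right⟩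
  | cyc P x _ hx ih =>
    intro X hX
    obtain ⟨F, hF, hFX, hXF⟩ := ih (X ⊓ P) inf_le_right
    obtain ⟨t, ht, hsp⟩ := split hx hX
    refine ⟨insert t F, hF.insert t, Set.insert_subset ht (hFX.trans inf_le_left), ?_⟩
    intro y hy
    obtain ⟨k, hk⟩ := hsp y hy
    have h1 : y * t ^ k ∈ closure (insert t F) ⊔ N :=
      (sup_le_sup_right (Subgroup.closure_mono (Set.subset_insert t F)) N) (hXF hk)
    have h2 : t ∈ closure (insert t F) ⊔ N :=
      mem_sup_left (subset_closure (Set.mem_insert t F))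
    have h3 := mul_mem h1 (zpow_mem h2 (-k))
    rwa [mul_assoc, ← zpow_add, add_neg_cancel, zpow_zero, mul_one] at h3
  | fin P T _ hPT hidx ih =>
    intro X hX
    obtain ⟨F, hF, hFX, hXF⟩ := ih (X ⊓ P) inf_le_right
    have h1 : (X ⊓ P).relIndex X ≠ 0 := by
      rw [inf_relIndex_left]
      exact fun h => hidx (relIndex_eq_zero_of_le_right hX h)
    obtain ⟨R, hR, hRX, hRr⟩ := exists_reps h1
    refine ⟨R ∪ F, hR.union hF, Set.union_subset hRX (hFX.trans inf_le_left), ?_⟩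
    intro y hy
    obtain ⟨r, hr, hry⟩ := hRr y hy
    have h2 : r⁻¹ * y ∈ closure (R ∪ F) ⊔ N :=
      (sup_le_sup_right (Subgroup.closure_mono Set.subset_union_right) N) (hXF hry)
    have h3 : r ∈ closure (R ∪ F) ⊔ N := mem_sup_left (subset_closure (Or.inl hr))
    have h4 := mul_mem h3 h2
    rwa [mul_inv_cancel_left] at h4

/-- Virtual nilpotence of a subgroup. -/
def VNil (S : Subgroup G) : Prop := ∃ K ≤ S, K.relIndex S ≠ 0 ∧ Group.IsNilpotent K

theorem nilp_mono {A B : Subgroup G} (h : A ≤ B) (hB : Group.IsNilpotent B) :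
    Group.IsNilpotent A := by
  obtain ⟨n, hn⟩ := (isNilpotent_iff_lowerCentralSeries _).1 hB
  refine (isNilpotent_iff_lowerCentralSeries _).2 ⟨n, ?_⟩
  rw [eq_bot_iff, ← hn]
  exact lowerCentralSeries_mono n h

theorem VNil.of_nilp {S : Subgroup G} (h : Group.IsNilpotent S) : VNil S :=
  ⟨S, le_rfl, by simp, h⟩

theorem VNil.up {H S : Subgroup G} (hHS : H ≤ S) (h : H.relIndex S ≠ 0) (hH : VNil H) :
    VNil S := by
  obtain ⟨K, hK, hKi, hKn⟩ := hH
  exact ⟨K, hK.trans hHS, relIndex_ne_zero_trans hKi h, hKn⟩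

theorem fg_of_relIndex {A B : Subgroup G} (hAB : A ≤ B) (h : A.relIndex B ≠ 0) (hB : B.FG) :
    A.FG := by
  have h1 : (A.subgroupOf B).FiniteIndex := ⟨h⟩
  have h2 : Group.FG B := (Group.fg_iff_subgroup_fg B).2 hB
  have h3 : (A.subgroupOf B).FG := by
    have := Subgroup.fg_of_index_ne_zero (A.subgroupOf B)
    exact (Group.fg_iff_subgroup_fg _).1 this
  obtain ⟨S, hS, hSf⟩ := (Subgroup.fg_iff _).1 h3
  refine (Subgroup.fg_iff _).2 ⟨B.subtype '' S, ?_, hSf.image _⟩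
  rw [← MonoidHom.map_closure, hS, subgroupOf_map_subtype, inf_eq_left.2 hAB]

end Pool.Agent.H648R4
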