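import Pool.Agent.H648R4.PolyA

/-!
# Finitely generated invariant subgroups, invariant subgroups of finite index
-/

namespace Pool.Agent.H648R4

open Subgroup commutatorElement

section milnor

variable {Γ : Type*} [Group Γ]

/-- In a virtually nilpotent group every element lies in a finitely generated subgroup that is
invariant under conjugation by a given element and as small as possible. -/
theorem milnor {K : Subgroup Γ} [hKn : K.Normal] [hKf : K.FiniteIndex]
    (hK : Group.IsNilpotent K) (ν t : Γ) :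
    ∃ F : Set Γ, F.Finite ∧ ν ∈ F ∧ Nz (closure F) t ∧
      ∀ Z : Subgroup Γ, ν ∈ Z → Nz Z t → F ⊆ Z := by
  obtain ⟨c, hc⟩ := (isNilpotent_iff_lowerCentralSeries _).1 hK
  set k := K.index with hk
  have hk0 : 0 < k := Nat.pos_of_ne_zero hKf.index_ne_zero
  set s := t ^ k with hs
  have hsK : s ∈ K := K.pow_index_mem t
  let u : ℕ → Γ := fun j => Nat.rec ⁅s, ν⁆ (fun _ x => ⁅s, x⁆) j
  have hu0 : u 0 = ⁅s, ν⁆ := rfl
  have hus : ∀ j, u (j + 1) = ⁅s, u j⁆ := fun j => rfl
  have hmem : ∀ j, u j ∈ K.lowerCentralSeries j := by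
    intro j
    induction j with
    | zero =>
      rw [hu0, commutatorElement_def, Subgroup.lowerCentralSeries_zero, mul_assoc, mul_assoc]
      refine K.mul_mem hsK ?_
      rw [← mul_assoc]
      exact hKn.conj_mem _ (K.inv_mem hsK) ν
    | succ j ih =>
      rw [hus, Subgroup.lowerCentralSeries_succ, commutator_comm]
      exact commutator_mem_commutator hsK ih
  have hone : ∀ i, c ≤ i → u i = 1 := by
    intro i hi
    have h1 := (K.lowerCentralSeries_antitone hi) (hmem i)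
    rw [hc] at h1
    exact mem_bot.1 h1
  set F0 : Set Γ := insert ν (u '' Set.Iio c) with hF0
  have hF0fin : F0.Finite := ((Set.finite_Iio c).image u).insert ν
  have huM : ∀ i, u i ∈ closure F0 := by
    intro i
    by_cases hi : i < c
    · exact subset_closure (Or.inr ⟨i, hi, rfl⟩)
    · rw [hone i (by omega)]; exact one_mem _
  have hνM : ν ∈ closure F0 := subset_closure (Or.inl rfl)
  have hsu : ∀ x : Γ, s * x * s⁻¹ = ⁅s, x⁆ * x := by
    intro x; rw [commutatorElement_def]; group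
  have hdown : ∀ m i, c ≤ i + m → s⁻¹ * u i * s ∈ closure F0 := by
    intro m
    induction m with
    | zero => intro i hi; rw [hone i (by omega)]; simp
    | succ m ih =>
      intro i hi
      have h1 := ih (i + 1) (by omega)
      have h2 : s⁻¹ * u i * s = (s⁻¹ * u (i + 1) * s)⁻¹ * u i := by
        rw [hus, commutatorElement_def]; group
      rw [h2]
      exact mul_mem (inv_mem h1) (huM i)
  have hNs : Nz (closure F0) s := by
    refine Nz.closure fun y hy => ?_
    rcases hy with rfl | ⟨i, _, rfl⟩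
    · refine ⟨?_, ?_⟩
      · rw [hsu, ← hu0]; exact mul_mem (huM 0) hνM
      · have h2 : s⁻¹ * y * s = (s⁻¹ * u 0 * s)⁻¹ * y := by
          rw [hu0, commutatorElement_def]; group
        rw [h2]
        exact mul_mem (inv_mem (hdown c 0 (by omega))) hνM
    · refine ⟨?_, hdown c i (by omega)⟩
      rw [hsu, ← hus]
      exact mul_mem (huM (i + 1)) (huM i)
  set F : Set Γ := (fun p : ℕ × Γ => t ^ p.1 * p.2 * (t ^ p.1)⁻¹) '' (Set.Iio k ×ˢ F0) with hF
  have hinF : ∀ r < k, ∀ z ∈ F0, t ^ r * z * (t ^ r)⁻¹ ∈ F := fun r hr z hz =>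
    ⟨(r, z), ⟨hr, hz⟩, rfl⟩
  have hconj : ∀ r < k, ∀ w ∈ closure F0, t ^ r * w * (t ^ r)⁻¹ ∈ closure F := by
    intro r hr w hw
    induction hw using closure_induction with
    | mem y hy => exact subset_closure (hinF r hr y hy)
    | one => simp
    | mul a b _ _ ha hb =>
      rw [show t ^ r * (a * b) * (t ^ r)⁻¹ = (t ^ r * a * (t ^ r)⁻¹) * (t ^ r * b * (t ^ r)⁻¹)
        by group]
      exact mul_mem ha hb
    | inv a _ ha =>
      rw [show t ^ r * a⁻¹ * (t ^ r)⁻¹ = (t ^ r * a * (t ^ r)⁻¹)⁻¹ by group]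
      exact inv_mem ha
  refine ⟨F, ((Set.finite_Iio k).prod hF0fin).image _, ?_, ?_, ?_⟩
  · have := hinF 0 hk0 ν (Or.inl rfl)
    simpa using this
  · refine Nz.closure ?_
    rintro _ ⟨⟨r, z⟩, ⟨hr, hz⟩, rfl⟩
    have hr' : r < k := hr
    have hz' : z ∈ F0 := hz
    simp only
    constructor
    · have e : t * (t ^ r * z * (t ^ r)⁻¹) * t⁻¹ = t ^ (r + 1) * z * (t ^ (r + 1))⁻¹ := by
        rw [pow_succ']; group
      rw [e]
      by_cases h : r + 1 < k
      · exact subset_closure (hinF _ h z hz')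
      · have h2 : r + 1 = k := by omega
        rw [h2, ← hs]
        have h3 := hconj 0 hk0 _ (hNs z (subset_closure hz')).1
        simpa using h3
    · cases r with
      | zero =>
        have h3 := hconj (k - 1) (by omega) _ (hNs z (subset_closure hz')).2
        have e : t⁻¹ * (t ^ 0 * z * (t ^ 0)⁻¹) * t =
            t ^ (k - 1) * (s⁻¹ * z * s) * (t ^ (k - 1))⁻¹ := by
          have hs2 : s = t ^ (k - 1) * t := by rw [hs, ← pow_succ]; congr 1; omega
          have hs3 : s = t * t ^ (k - 1) := by rw [hs, ← pow_succ']; congr 1; omega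
          have e1 : t ^ (k - 1) * s⁻¹ = t⁻¹ := by rw [hs3]; group
          have e2 : s * (t ^ (k - 1))⁻¹ = t := by rw [hs3]; group
          calc t⁻¹ * (t ^ 0 * z * (t ^ 0)⁻¹) * t = t⁻¹ * z * t := by simp
            _ = (t ^ (k - 1) * s⁻¹) * z * (s * (t ^ (k - 1))⁻¹) := by rw [e1, e2]
            _ = _ := by group
        rw [e]
        exact h3
      | succ r =>
        have e : t⁻¹ * (t ^ (r + 1) * z * (t ^ (r + 1))⁻¹) * t = t ^ r * z * (t ^ r)⁻¹ := by
          rw [pow_succ']; group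
        rw [e]
        exact subset_closure (hinF r (by omega) z hz')
  · intro Z hνZ hZ
    have hZs : Nz Z s := by
      have := hZ.zpow (k : ℤ)
      rwa [zpow_natCast] at this
    have huZ : ∀ j, u j ∈ Z := by
      intro j
      induction j with
      | zero =>
        rw [hu0, commutatorElement_def]
        exact mul_mem (hZs ν hνZ).1 (inv_mem hνZ)
      | succ j ih =>
        rw [hus, commutatorElement_def]
        exact mul_mem (hZs _ ih).1 (inv_mem ih)
    rintro _ ⟨⟨r, z⟩, ⟨_, hz⟩, rfl⟩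
    have hzZ : z ∈ Z := by
      rcases hz with rfl | ⟨i, _, rfl⟩
      · exact hνZ
      · exact huZ i
    have h3 := (hZ.zpow (r : ℤ) z hzZ).1
    simpa [zpow_natCast] using h3

end milnor

variable {G : Type*} [Group G]

theorem nilp_subgroupOf {K L : Subgroup G} (hK : Group.IsNilpotent K) :
    Group.IsNilpotent (K.subgroupOf L) := by
  obtain ⟨n, hn⟩ := (isNilpotent_iff_lowerCentralSeries _).1 hK
  refine (isNilpotent_iff_lowerCentralSeries _).2 ⟨n, ?_⟩
  rw [← Subgroup.map_eq_bot_iff_of_injective _ L.subtype_injective, map_lowerCentralSeries,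
    subgroupOf_map_subtype, eq_bot_iff, ← hn]
  exact lowerCentralSeries_mono n inf_le_left

theorem nilp_map {Γ : Type*} [Group Γ] {K : Subgroup Γ} (f : Γ →* G) (hK : Group.IsNilpotent K) :
    Group.IsNilpotent (K.map f) := by
  obtain ⟨n, hn⟩ := (isNilpotent_iff_lowerCentralSeries _).1 hK
  refine (isNilpotent_iff_lowerCentralSeries _).2 ⟨n, ?_⟩
  rw [← map_lowerCentralSeries, hn, Subgroup.map_bot]

/-- The ambient form. -/
theorem milnor_sub {Γ : Subgroup G} (hv : VNil Γ) {ν t : G} (hν : ν ∈ Γ) (ht : t ∈ Γ) :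
    ∃ F : Set G, F.Finite ∧ ν ∈ F ∧ Nz (closure F) t ∧
      ∀ Z : Subgroup G, ν ∈ Z → Nz Z t → F ⊆ Z := by
  obtain ⟨K, hKΓ, hKi, hKn⟩ := hv
  have h1 : (K.subgroupOf Γ).FiniteIndex := ⟨hKi⟩
  set K1 := (K.subgroupOf Γ).normalCore with hK1
  have h2 : K1.FiniteIndex := inferInstance
  have h3 : Group.IsNilpotent K1 :=
    nilp_mono (K.subgroupOf Γ).normalCore_le (nilp_subgroupOf hKn)
  obtain ⟨F, hF, hνF, hFt, hFZ⟩ := milnor (K := K1) h3 ⟨ν, hν⟩ ⟨t, ht⟩
  refine ⟨Γ.subtype '' F, hF.image _, ⟨⟨ν, hν⟩, hνF, rfl⟩, ?_, ?_⟩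
  · rw [← MonoidHom.map_closure]
    rintro _ ⟨y, hy, rfl⟩
    obtain ⟨h4, h5⟩ := hFt y hy
    exact ⟨⟨_, h4, rfl⟩, ⟨_, h5, rfl⟩⟩
  · intro Z hνZ hZ
    have h4 := hFZ (Z.subgroupOf Γ) (mem_subgroupOf.2 hνZ) (fun y hy => by
      have h5 := hZ _ (mem_subgroupOf.1 hy)
      exact ⟨mem_subgroupOf.2 h5.1, mem_subgroupOf.2 h5.2⟩)
    rintro _ ⟨y, hy, rfl⟩
    exact mem_subgroupOf.1 (h4 hy)

theorem finite_homs (L : Type*) [Group L] [hL : Group.FG L] (P : Type*) [Group P] [Finite P] :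
    Finite (L →* P) := by
  obtain ⟨S, hS1, hS2⟩ := Group.fg_iff.1 hL
  have : Finite S := hS2
  refine Finite.of_injective (fun (φ : L →* P) (s : S) => φ s) fun φ ψ h => ?_
  refine MonoidHom.eq_of_eqOn_dense hS1 fun x hx => ?_
  exact congrFun h ⟨x, hx⟩

/-- A subgroup of finite index invariant under all endomorphisms. -/
theorem exists_char {L : Type*} [Group L] [Group.FG L] {K0 : Subgroup L} [hK0 : K0.FiniteIndex]
    (hK : Group.IsNilpotent K0) : ∃ K : Subgroup L, K.FiniteIndex ∧ Group.IsNilpotent K ∧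
      ∀ (τ : L →* L), ∀ y ∈ K, τ y ∈ K := by
  have hfin : Finite (L ⧸ K0) := inferInstance
  set m := Nat.card (L ⧸ K0) with hm
  let e : (L ⧸ K0) ≃ Fin m := Finite.equivFin _
  have := finite_homs L (Equiv.Perm (Fin m))
  refine ⟨⨅ φ : L →* Equiv.Perm (Fin m), φ.ker, ?_, ?_, ?_⟩
  · refine finiteIndex_iInf fun φ => ?_
    infer_instance
  · refine nilp_mono ?_ hK
    let φ0 : L →* Equiv.Perm (Fin m) :=
      (e.permCongrHom.toMonoidHom).comp (MulAction.toPermHom L (L ⧸ K0))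
    refine (iInf_le _ φ0).trans ?_
    refine le_trans ?_ K0.normalCore_le
    rw [normalCore_eq_ker]
    intro y hy
    rw [MonoidHom.mem_ker] at hy ⊢
    have h1 : e.permCongrHom (MulAction.toPermHom L (L ⧸ K0) y) = 1 := hy
    exact (map_eq_one_iff _ e.permCongrHom.injective).1 h1
  · intro τ y hy
    rw [mem_iInf] at hy ⊢
    intro φ
    have h1 := hy (φ.comp τ)
    rw [MonoidHom.mem_ker] at h1 ⊢
    exact h1

theorem exists_char_sub {L : Subgroup G} (hL : L.FG) (hv : VNil L) :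
    ∃ K ≤ L, K.relIndex L ≠ 0 ∧ Group.IsNilpotent K ∧ ∀ t, Nz L t → Nz K t := by
  obtain ⟨K0, hK0L, hK0i, hK0n⟩ := hv
  have h1 : (K0.subgroupOf L).FiniteIndex := ⟨hK0i⟩
  have h2 : Group.FG L := (Group.fg_iff_subgroup_fg L).2 hL
  obtain ⟨K, hKf, hKn, hKτ⟩ := exists_char (nilp_subgroupOf (L := L) hK0n)
  refine ⟨K.map L.subtype, map_subtype_le K, ?_, nilp_map _ hKn, fun t ht => ?_⟩
  · have h3 : (K.map L.subtype).subgroupOf L = K :=
      comap_map_eq_self_of_injective L.subtype_injective K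
    rw [relIndex, h3]
    exact hKf.index_ne_zero
  · have key : ∀ t, Nz L t → ∀ y ∈ K.map L.subtype, t * y * t⁻¹ ∈ K.map L.subtype := by
      intro t ht
      let τ : L →* L :=
        { toFun := fun y => ⟨t * y * t⁻¹, (ht y y.2).1⟩
          map_one' := by ext; simp
          map_mul' := fun a b => by ext; simp }
      rintro _ ⟨y, hy, rfl⟩
      exact ⟨τ y, hKτ τ y hy, rfl⟩
    intro y hy
    refine ⟨key t ht y hy, ?_⟩
    have := key t⁻¹ ht.inv y hy
    rwa [inv_inv] at this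

theorem relIndex_of_cover {H S : Subgroup G} {F : Set G} (hF : F.Finite) (hFS : F ⊆ S)
    (h : ∀ y ∈ S, ∃ r ∈ F, r⁻¹ * y ∈ H) : H.relIndex S ≠ 0 := by
  have : Finite F := hF
  have hfin : Finite (S ⧸ H.subgroupOf S) := by
    refine Finite.of_surjective
      (fun r : F => (QuotientGroup.mk (⟨r, hFS r.2⟩ : S) : S ⧸ H.subgroupOf S)) fun q => ?_
    obtain ⟨⟨y, hy⟩, rfl⟩ := QuotientGroup.mk_surjective q
    obtain ⟨r, hr, hry⟩ := h y hy
    refine ⟨⟨r, hr⟩, QuotientGroup.eq.2 ?_⟩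
    exact mem_subgroupOf.2 hry
  exact index_ne_zero_of_finite

theorem relIndex_sup_cyc {K L : Subgroup G} {t : G} (hi : K.relIndex L ≠ 0) (hL : Nz L t) :
    (K ⊔ zpowers t).relIndex (L ⊔ zpowers t) ≠ 0 := by
  obtain ⟨F, hF, hFL, hFr⟩ := exists_reps hi
  refine relIndex_of_cover hF (fun x hx => mem_sup_left (hFL hx)) fun y hy => ?_
  obtain ⟨l, hl, j, rfl⟩ := (mem_sup_cyc hL y).1 hy
  obtain ⟨r, hr, hrl⟩ := hFr l hl
  refine ⟨r, hr, ?_⟩
  rw [← mul_assoc]
  exact mul_mem (mem_sup_left hrl) (zpow_mem (mem_sup_right (mem_zpowers t)) j)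

end Pool.Agent.H648R4
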