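import Pool.Agent.H648R4.PolyB
import Pool.Agent.H648R4.Fit

/-!
# Nilpotent-by-polycyclic groups

A finitely generated group that is nilpotent-by-(virtually polycyclic) and not virtually nilpotent
has a finitely generated subgroup that is nilpotent-by-abelian and not virtually nilpotent.
-/

namespace Pool.Agent.H648R4

open Subgroup commutatorElement

variable {G : Type*} [Group G]

theorem fg_closure_finite {F : Set G} (hF : F.Finite) : (closure F).FG :=
  (Subgroup.fg_iff _).2 ⟨F, rfl, hF⟩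

theorem exists_normal_nilp {N : Subgroup G}
    (hN : ∀ ν ∈ N, Group.IsNilpotent (normalClosure ({ν} : Set G))) {F : Set G} (hF : F.Finite)
    (hFN : F ⊆ N) : ∃ M : Subgroup G, M.Normal ∧ Group.IsNilpotent M ∧ F ⊆ M := by
  induction F, hF using Set.Finite.induction_on with
  | empty =>
    refine ⟨⊥, inferInstance, ?_, by simp⟩
    infer_instance
  | insert _ _ ih =>
    rename_i a s _ _
    obtain ⟨M, hM, hMn, hs⟩ := ih (fun x hx => hFN (Or.inr hx))
    have h1 := hN a (hFN (Or.inl rfl))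
    refine ⟨normalClosure {a} ⊔ M, inferInstance, fitting_thm h1 hMn, ?_⟩
    rintro x (rfl | hx)
    · exact mem_sup_left (subset_normalClosure rfl)
    · exact mem_sup_right (hs hx)

theorem exists_sub {N : Subgroup G} [hNn : N.Normal]
    (hN : ∀ ν ∈ N, Group.IsNilpotent (normalClosure ({ν} : Set G))) {T : Subgroup G}
    (hT : PC N T) : ∀ S ≤ T, S.FG → ¬ VNil S →
    ∃ H ≤ S, H.FG ∧ Group.IsNilpotent (⁅H, H⁆ : Subgroup G) ∧ ¬ VNil H := by
  induction hT with
  | base =>
    intro S hS hfg hv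
    obtain ⟨F, hF, hFf⟩ := (Subgroup.fg_iff _).1 hfg
    obtain ⟨M, _, hMn, hFM⟩ := exists_normal_nilp hN hFf (fun x hx => hS (by
      rw [← hF]; exact subset_closure hx))
    refine absurd (VNil.of_nilp (nilp_mono ?_ hMn)) hv
    rw [← hF, closure_le]
    exact hFM
  | fin P T hP hPT hidx ih =>
    intro S hS hfg hv
    have h1 : (S ⊓ P).relIndex S ≠ 0 := by
      rw [inf_relIndex_left]
      exact fun h => hidx (relIndex_eq_zero_of_le_right hS h)
    obtain ⟨H, hH, h2⟩ := ih (S ⊓ P) inf_le_right (fg_of_relIndex inf_le_left h1 hfg)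
      (fun h => hv (h.up inf_le_left h1))
    exact ⟨H, hH.trans inf_le_left, h2⟩
  | cyc P x hP hx ih =>
    intro S hS hfg hv
    by_cases hall : ∃ L ≤ S ⊓ P, L.FG ∧ ¬ VNil L
    · obtain ⟨L, hL, hLfg, hLv⟩ := hall
      obtain ⟨H, hH, h2⟩ := ih L (hL.trans inf_le_right) hLfg hLv
      exact ⟨H, hH.trans (hL.trans inf_le_left), h2⟩
    have hLV : ∀ L ≤ S ⊓ P, L.FG → VNil L := by
      intro L hL hLfg
      by_contra h
      exact hall ⟨L, hL, hLfg, h⟩
    obtain ⟨t, htS, hsp⟩ := split hx hS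
    have htP : Nz P t := nz_sup hx (hS htS)
    have htS1 : Nz (S ⊓ P) t := (Nz.of_mem htS).inf htP
    obtain ⟨Fs, hFs, hFsf⟩ := (Subgroup.fg_iff _).1 hfg
    obtain ⟨F1, hF1, hF1S, hS1⟩ := noeth hP (S ⊓ P) inf_le_right
    have hsp' : ∀ y : G, ∃ k : ℤ, y ∈ S → y * t ^ k ∈ S ⊓ P := by
      intro y
      by_cases hy : y ∈ S
      · obtain ⟨k, hk⟩ := hsp y hy
        exact ⟨k, fun _ => hk⟩
      · exact ⟨0, fun h => absurd h hy⟩
    choose κ hκ using hsp'
    set B0 : Set G := F1 ∪ (fun y => y * t ^ κ y) '' Fs with hB0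
    have hB0f : B0.Finite := hF1.union (hFsf.image _)
    have hFsS : ∀ y ∈ Fs, y ∈ S := fun y hy => by rw [← hFs]; exact subset_closure hy
    have hB0S : B0 ⊆ (S ⊓ P : Subgroup G) := by
      rintro y (hy | ⟨z, hz, rfl⟩)
      · exact hF1S hy
      · exact hκ z (hFsS z hz)
    set B := closure B0 with hB
    have hBS : B ≤ S ⊓ P := (closure_le _).2 hB0S
    have hS1B : S ⊓ P ≤ B ⊔ N :=
      hS1.trans (sup_le_sup_right (Subgroup.closure_mono Set.subset_union_left) N)
    have hdec : ∀ y : G, ∃ ν : G, y ∈ S ⊓ P → ν ∈ N ∧ ν ∈ S ⊓ P ∧ ∃ β ∈ B, y = β * ν := by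
      intro y
      by_cases hy : y ∈ S ⊓ P
      · obtain ⟨β, hβ, ν, hν, h⟩ := mem_sup_of_normal_right.1 (hS1B hy)
        refine ⟨ν, fun _ => ⟨hν, ?_, β, hβ, h.symm⟩⟩
        have h3 : ν = β⁻¹ * y := by rw [← h]; group
        rw [h3]
        exact mul_mem (inv_mem (hBS hβ)) hy
      · exact ⟨1, fun h => absurd h hy⟩
    choose nu hnu using hdec
    set V : Set G := (fun b => nu (t * b * t⁻¹)) '' B0 ∪ (fun b => nu (t⁻¹ * b * t)) '' B0 with hV
    have hVf : V.Finite := (hB0f.image _).union (hB0f.image _)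
    have hVN : ∀ ν ∈ V, ν ∈ N ∧ ν ∈ S ⊓ P := by
      rintro ν (⟨b, hb, rfl⟩ | ⟨b, hb, rfl⟩)
      · have := hnu _ (htS1 b (hB0S hb)).1
        exact ⟨this.1, this.2.1⟩
      · have := hnu _ (htS1 b (hB0S hb)).2
        exact ⟨this.1, this.2.1⟩
    by_cases hpair : ∃ ν ∈ V, ¬ VNil (closure ({ν, t} : Set G))
    · obtain ⟨ν, hν, hnv⟩ := hpair
      refine ⟨closure {ν, t}, ?_, fg_closure_finite (by simp), ?_, hnv⟩
      · rw [closure_le]
        rintro y (rfl | rfl)
        · exact (hVN y hν).2.1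
        · exact htS
      · have h1 : closure ({ν, t} : Set G) ≤ normalClosure {ν} ⊔ zpowers t := by
          rw [closure_le]
          rintro y (rfl | rfl)
          · exact mem_sup_left (subset_normalClosure rfl)
          · exact mem_sup_right (mem_zpowers y)
        exact nilp_mono ((commutator_mono h1 h1).trans
          (comm_cyc (Nz.of_normal (normalClosure {ν}) t))) (hN ν (hVN ν hν).1)
    · have hMil : ∀ ν : G, ∃ F : Set G, ν ∈ V → F.Finite ∧ ν ∈ F ∧ Nz (closure F) t ∧
          F ⊆ (S ⊓ P : Subgroup G) := by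
        intro ν
        by_cases hν : ν ∈ V
        · have h1 : VNil (closure ({ν, t} : Set G)) := by
            by_contra h
            exact hpair ⟨ν, hν, h⟩
          obtain ⟨F, hF, h2, h3, h4⟩ := milnor_sub h1 (subset_closure (by simp : ν ∈ ({ν, t} : Set G)))
            (subset_closure (by simp : t ∈ ({ν, t} : Set G)))
          exact ⟨F, fun _ => ⟨hF, h2, h3, h4 _ (hVN ν hν).2 htS1⟩⟩
        · exact ⟨∅, fun h => absurd h hν⟩
      choose M hM using hMil
      set L0 : Set G := B0 ∪ ⋃ ν ∈ V, M ν with hL0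
      have hL0f : L0.Finite := hB0f.union (hVf.biUnion fun ν hν => (hM ν hν).1)
      have hL0S : L0 ⊆ (S ⊓ P : Subgroup G) := by
        rintro y (hy | hy)
        · exact hB0S hy
        · simp only [Set.mem_iUnion] at hy
          obtain ⟨ν, hν, hy⟩ := hy
          exact (hM ν hν).2.2.2 hy
      set L := closure L0 with hL
      have hLS : L ≤ S ⊓ P := (closure_le _).2 hL0S
      have hBL : B ≤ L := Subgroup.closure_mono Set.subset_union_left
      have hML : ∀ ν ∈ V, closure (M ν) ≤ L := fun ν hν =>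
        Subgroup.closure_mono ((Set.subset_biUnion_of_mem (u := fun ν => M ν) hν).trans
          Set.subset_union_right)
      have hNL : Nz L t := by
        refine Nz.closure ?_
        rintro y (hy | hy)
        · refine ⟨?_, ?_⟩
          · obtain ⟨-, -, β, hβ, h⟩ := hnu _ (htS1 y (hB0S hy)).1
            rw [h]
            have hV1 : nu (t * y * t⁻¹) ∈ V := Or.inl ⟨y, hy, rfl⟩
            exact mul_mem (hBL hβ) (hML _ hV1 (subset_closure (hM _ hV1).2.1))
          · obtain ⟨-, -, β, hβ, h⟩ := hnu _ (htS1 y (hB0S hy)).2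
            rw [h]
            have hV1 : nu (t⁻¹ * y * t) ∈ V := Or.inr ⟨y, hy, rfl⟩
            exact mul_mem (hBL hβ) (hML _ hV1 (subset_closure (hM _ hV1).2.1))
        · simp only [Set.mem_iUnion] at hy
          obtain ⟨ν, hν, hy⟩ := hy
          obtain ⟨h1, h2⟩ := (hM ν hν).2.2.1 y (subset_closure hy)
          exact ⟨hML ν hν h1, hML ν hν h2⟩
      have hLfg : L.FG := fg_closure_finite hL0f
      have hSL : S = L ⊔ zpowers t := by
        apply le_antisymm
        · rw [← hFs, closure_le]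
          intro y hy
          have h1 : y * t ^ κ y ∈ L ⊔ zpowers t :=
            mem_sup_left (hBL (subset_closure (Or.inr ⟨y, hy, rfl⟩)))
          have h2 := mul_mem h1 (zpow_mem (mem_sup_right (mem_zpowers t) : t ∈ L ⊔ zpowers t)
            (-κ y))
          rwa [mul_assoc, ← zpow_add, add_neg_cancel, zpow_zero, mul_one] at h2
        · refine sup_le (hLS.trans inf_le_left) ?_
          rw [zpowers_le]
          exact htS
      obtain ⟨K, hKL, hKi, hKn, hKt⟩ := exists_char_sub hLfg (hLV L hLS hLfg)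
      have hKt' := hKt t hNL
      have hHS : K ⊔ zpowers t ≤ S := by
        rw [hSL]
        exact sup_le_sup_right hKL _
      refine ⟨K ⊔ zpowers t, hHS, ?_, nilp_mono (comm_cyc hKt') hKn, fun h => hv ?_⟩
      · have h1 : K.FG := fg_of_relIndex hKL hKi hLfg
        obtain ⟨Fk, hFk, hFkf⟩ := (Subgroup.fg_iff _).1 h1
        refine (Subgroup.fg_iff _).2 ⟨Fk ∪ {t}, ?_, hFkf.union (Set.finite_singleton t)⟩
        rw [Subgroup.closure_union, hFk, zpowers_eq_closure]
      · refine h.up hHS ?_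
        rw [hSL]
        exact relIndex_sup_cyc hKi hNL

end Pool.Agent.H648R4
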