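import Pool.Agent.H648R4.Lift

/-!
# The reductions for groups with nilpotent commutator subgroup
-/

namespace Pool.Agent.NPC.SSP648

open Pool.Agent.H648R3.SSP Pool.Agent.H648R4 commutatorElement

/-- The largest metabelian quotient. -/
abbrev MQ (G : Type*) [Group G] : Type _ := G ⧸ ⁅commutator G, commutator G⁆

/-- The projection. -/
abbrev mq (G : Type*) [Group G] : G →* MQ G := QuotientGroup.mk' _

theorem map_comm_MQ (G : Type*) [Group G] : (commutator G).map (mq G) = commutator (MQ G) := by
  have h0 : Subgroup.map (mq G) ⁅(⊤ : Subgroup G), ⊤⁆ = ⁅(⊤ : Subgroup (MQ G)), ⊤⁆ := by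
    rw [Subgroup.map_commutator, ← MonoidHom.range_eq_map,
      MonoidHom.range_eq_top.2 (QuotientGroup.mk'_surjective _)]
  exact h0

instance metab_MQ (G : Type*) [Group G] : Metab (MQ G) where
  comm := by
    rw [← map_comm_MQ]
    rintro _ ⟨a, ha, rfl⟩ _ ⟨b, hb, rfl⟩
    have h1 : ⁅a, b⁆ ∈ ⁅commutator G, commutator G⁆ := Subgroup.commutator_mem_commutator ha hb
    have h2 : mq G ⁅a, b⁆ = 1 := (QuotientGroup.eq_one_iff _).2 h1
    rw [map_commutatorElement, commutatorElement_eq_one_iff_mul_comm] at h2
    exact h2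

section

variable {G : Type*} [Group G] {n : ℕ} {g : Fin n → G} {i : Fin n} {A : List (Fin n × Bool)}
  {c : ℕ}

theorem mem_comm_of (hA : wval (fun j => mq G (g j)) A ∈ commutator (MQ G)) :
    wval g A ∈ commutator G := by
  rw [wval_map g (fun j => mq G (g j)) (mq G) (fun _ => rfl), ← map_comm_MQ] at hA
  obtain ⟨y, hy, hyA⟩ := hA
  have h1 : y⁻¹ * wval g A ∈ ⁅commutator G, commutator G⁆ := QuotientGroup.eq.1 hyA
  have h2 : y⁻¹ * wval g A ∈ commutator G := Subgroup.commutator_le_left _ _ h1
  have h3 := Subgroup.mul_mem _ hy h2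
  rwa [mul_inv_cancel_left] at h3

theorem F_one (hc : (commutator G).lowerCentralSeries c = ⊥) (hA : wval g A ∈ commutator G)
    (P : ℕ) : ∀ z ∈ F (US g i A P) c, z = 1 := by
  intro z hz
  have h1 := F_subset_lcs (N := commutator G) (U := US g i A P) (by
    rintro _ ⟨p, _, rfl⟩
    exact (inferInstance : (commutator G).Normal).conj_mem _ hA _) c z hz
  rw [hc] at h1
  exact Subgroup.mem_bot.1 h1

theorem map_lw_flatten (i : Fin n) (A : List (Fin n × Bool)) (f : ℕ → ℕ) (S : List (List ℕ)) :
    (S.map fun l => lw i A (l.map f)).flatten = lw i A (S.flatten.map f) := by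
  induction S with
  | nil => rfl
  | cons l S ih =>
    rw [List.map_cons, List.flatten_cons, ih, List.flatten_cons, List.map_append, lw, lw, lw,
      List.flatMap_append]

theorem f0_eq (i : Fin n) (A : List (Fin n × Bool)) (K : ℕ) (I : List (List ℕ) × List Unit)
    (hI : PrEC I) : f0 i A K I = (I.1.map fun l => lw i A (l.map fun e => K * e),
      lw i A ((List.range I.2.length).map fun e => K * e)) := by
  have key : ∀ l : List ℕ, (∀ e ∈ l, e < I.2.length) →
      (l.flatMap fun e => bw i A (min (K * e) (K * I.2.length))) =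
        lw i A (l.map fun e => K * e) := by
    intro l hl
    rw [lw, List.flatMap_map]
    refine List.flatMap_congr fun e he => ?_
    rw [min_eq_left (Nat.mul_le_mul_left K (hl e he).le)]
  rw [f0]
  refine Prod.ext ?_ ?_
  · exact List.map_congr_left fun l hl => key l (hI.1 l hl)
  · exact key _ fun e he => List.mem_range.1 he

/-- The reduction for the first type. -/
def r0 (i : Fin n) (A : List (Fin n × Bool)) (K c : ℕ) (I : List (List ℕ) × List Unit) :
    List (List (Fin n × Bool)) × List (Fin n × Bool) :=
  (SL i A (K * I.2.length) (c - 1) (3 * (I.2.length + 1) ^ c) ++ (f0 i A K I).1, (f0 i A K I).2)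

theorem poly_r0 (i : Fin n) (A : List (Fin n × Bool)) (K c : ℕ) : Poly (r0 i A K c) := by
  have hM : UPoly (fun I : List (List ℕ) × List Unit => I.2.length) :=
    UPoly.length (Poly.snd Poly.id)
  refine Poly.pair (Poly.append (poly_SL i A (UPoly.mul (UPoly.const K) hM)
    (UPoly.mul (UPoly.const 3) (upow (UPoly.add hM (UPoly.const 1)) c)) (c - 1))
    (Poly.fst (poly_f0 i A K))) (Poly.snd (poly_f0 i A K))

theorem r0_iff (hc : (commutator G).lowerCentralSeries c = ⊥) (h2c : 2 ≤ c)
    {a : Additive (commutator (MQ G))}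
    (hA : wval (fun j => mq G (g j)) A = ((a.toMul : commutator (MQ G)) : MQ G)) (K : ℕ)
    (hK1 : 1 ≤ K)
    (hK : ∀ (M : ℕ) (c : ℕ → ℤ), (∀ e < M, c e = -1 ∨ c e = 0 ∨ c e = 1 ∨ c e = 2) →
      ∑ e ∈ Finset.range M, c e • cj (mq G (g i) ^ (K * e)) a = 0 → ∀ e < M, c e = 0)
    (I : List (List ℕ) × List Unit) (hI : PrEC I) : EC I ↔ SubsetSum g (r0 i A K c I) := by
  have hAQ : wval (fun j => mq G (g j)) A ∈ commutator (MQ G) := by
    rw [hA]; exact SetLike.coe_mem _
  have hAG := mem_comm_of hAQ
  constructor
  · intro h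
    rw [EC] at h
    obtain ⟨b, hb, h⟩ := h
    simp only [selL_eq] at h
    set M := I.2.length with hM
    have hlt := pos_lt hI b
    rw [← hM] at hlt
    have hp : (selI b I.1).flatten.Perm (List.range M) := by
      rw [List.perm_iff_count]
      intro e
      by_cases he : e < M
      · rw [h e he, List.count_eq_one_of_mem List.nodup_range (List.mem_range.2 he)]
      · rw [List.count_eq_zero_of_not_mem fun hm => he (hlt e hm),
          List.count_eq_zero_of_not_mem fun hm => he (List.mem_range.1 hm)]
    obtain ⟨b1, hb1, h1⟩ := sel_SL (i := i) (A := A) g (F_one hc hAG (K * M)) h2c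
      ((selI b I.1).flatten.map fun e => K * e) ((List.range M).map fun e => K * e)
      (hp.map _) (fun p hp => by
        obtain ⟨e, he, rfl⟩ := List.mem_map.1 hp
        exact Nat.mul_lt_mul_of_pos_left (List.mem_range.1 he) hK1) (R := 3 * (M + 1) ^ c)
      (by rw [List.length_map, List.length_range])
    rw [subsetSum_iff', r0, f0_eq i A K I hI, ← hM]
    refine ⟨b1 ++ b, by simp [hb1, hb], ?_⟩
    simp only
    rw [selI_append _ _ _ _ hb1, List.flatten_append, wval_append, selI_map, map_lw_flatten,
      wval_lw', wval_lw', h1]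
  · intro h
    exact (f0_iff hA K hK I hI).2 (sound g (fun j => mq G (g j)) (mq G) (fun _ => rfl) _ _ _
      (SL_one hAQ _ _ _) h)

theorem uu_shift (g : Fin n → G) (i : Fin n) (A : List (Fin n × Bool)) (D s : ℕ) (l : List ℕ) :
    g i ^ s * (l.map fun e => uu g i A (D * e)).prod =
      (l.map fun e => uu g i A (D * e + s)).prod * g i ^ s := by
  induction l with
  | nil => simp
  | cons e l ih =>
    rw [List.map_cons, List.prod_cons, List.map_cons, List.prod_cons, mul_assoc _ _ (g i ^ s),
      ← ih]
    have h : g i ^ s * uu g i A (D * e) = uu g i A (D * e + s) * g i ^ s := by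
      rw [uu, uu, add_comm, pow_add]
      group
    rw [← mul_assoc, h, mul_assoc]

theorem wval_vw' (g : Fin n → G) (i : Fin n) (A : List (Fin n × Bool)) (D : ℕ)
    (S : List (List ℕ)) : ∀ s, g i ^ s * wval g (S.map (vw i A D)).flatten =
      ((posList s S).map fun p => uu g i A (D * p.1 + p.2)).prod *
        g i ^ (s + S.flatten.length) := by
  induction S with
  | nil => intro s; simp [posList]
  | cons l S ih =>
    intro s
    rw [List.map_cons, List.flatten_cons, wval_append, vw, wval_append, wval_lw',
      wval_replicate, posList, List.map_append, List.prod_append, List.flatten_cons,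
      List.length_append, ← add_assoc s, mul_assoc _ _ (g i ^ _), ← ih (s + l.length),
      List.map_map, List.map_map]
    have h1 := uu_shift g i A D s l
    have h2 : (List.map ((fun p : ℕ × ℕ => uu g i A (D * p.1 + p.2)) ∘ fun e => (e, s)) l).prod =
        (l.map fun e => uu g i A (D * e + s)).prod := rfl
    have h3 : (List.map (uu g i A ∘ fun e => D * e) l).prod =
        (l.map fun e => uu g i A (D * e)).prod := rfl
    rw [h2, h3, ← mul_assoc, ← mul_assoc, h1, pow_add]
    group

/-- The reduction for the second type. -/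
def r2 (i : Fin n) (A : List (Fin n × Bool)) (c : ℕ) (I : List (List ℕ) × List Unit) :
    List (List (Fin n × Bool)) × List (Fin n × Bool) :=
  (SQ i A ((3 * I.2.length + 1) * (I.2.length + 1) + 1) (I.2.length * (6 * I.2.length + 1)) ++
    (SL i A ((3 * I.2.length + 1) * (I.2.length + 1) + 1) (c - 1)
      (3 * (I.2.length * (6 * I.2.length + 1) + 1) ^ c) ++ (f2 i A I).1), (f2 i A I).2)

theorem poly_r2 (i : Fin n) (A : List (Fin n × Bool)) (c : ℕ) : Poly (r2 i A c) := by
  have hM : UPoly (fun I : List (List ℕ) × List Unit => I.2.length) :=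
    UPoly.length (Poly.snd Poly.id)
  have hP : UPoly (fun I : List (List ℕ) × List Unit =>
      (3 * I.2.length + 1) * (I.2.length + 1) + 1) :=
    UPoly.add (UPoly.mul (UPoly.add (UPoly.mul (UPoly.const 3) hM) (UPoly.const 1))
      (UPoly.add hM (UPoly.const 1))) (UPoly.const 1)
  have hR : UPoly (fun I : List (List ℕ) × List Unit => I.2.length * (6 * I.2.length + 1)) :=
    UPoly.mul hM (UPoly.add (UPoly.mul (UPoly.const 6) hM) (UPoly.const 1))
  refine Poly.pair (Poly.append (poly_SQ i A hP hR) (Poly.append (poly_SL i A hP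
    (UPoly.mul (UPoly.const 3) (upow (UPoly.add hR (UPoly.const 1)) c)) (c - 1))
    (Poly.fst (poly_f2 i A)))) (Poly.snd (poly_f2 i A))

theorem length_posList (S : List (List ℕ)) (s : ℕ) : (posList s S).length = S.flatten.length := by
  rw [← posList_fst S s, List.length_map]

theorem length_pairs (M : ℕ) : (pairs M).flatten.length = 6 * M * M := by
  have h : ∀ L : List ℕ, (L.map fun j => [cpos M j, cpos M j + 1]).flatten.length =
      2 * L.length := by
    intro L
    induction L with
    | nil => rfl
    | cons x L ih => rw [List.map_cons, List.flatten_cons, List.length_append, ih]; simp; ring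
  rw [pairs, h, List.length_range]
  ring

theorem pairs_lt (M : ℕ) : ∀ p ∈ (pairs M).flatten, p < (3 * M + 1) * (M + 1) + 1 := by
  intro p hp
  obtain ⟨l, hl, hpl⟩ := List.mem_flatten.1 hp
  obtain ⟨j, hj, rfl⟩ := List.mem_map.1 hl
  have hj' := List.mem_range.1 hj
  have hM0 : 0 < M := by
    rcases Nat.eq_zero_or_pos M with h | h
    · rw [h] at hj'; simp at hj'
    · exact h
  have h1 : j / (3 * M) < M := Nat.div_lt_of_lt_mul (by rw [mul_comm]; exact hj')
  have h2 : j % (3 * M) < 3 * M := Nat.mod_lt _ (by omega)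
  have h3 : cpos M j + 1 ≤ (3 * M + 1) * (M + 1) := by
    have : (3 * M + 1) * (j / (3 * M)) ≤ (3 * M + 1) * M := Nat.mul_le_mul_left _ h1.le
    rw [cpos, mul_add, mul_one]
    omega
  simp only [List.mem_cons, List.not_mem_nil, or_false] at hpl
  omega

theorem hind_single : ∀ (N : ℕ) (c : ℕ → ℤ),
    ∑ e ∈ Finset.range N, c e • (Finsupp.single e (1 : ZMod 2) : ℕ →₀ ZMod 2) = 0 →
    ∀ e < N, 2 ∣ c e := by
  intro N c h e he
  have h1 := congrArg (fun f : ℕ →₀ ZMod 2 => f e) h
  simp only [Finsupp.coe_finsetSum, Finset.sum_apply, Finsupp.smul_apply, Finsupp.single_apply,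
    Finsupp.coe_zero, Pi.zero_apply, smul_ite, smul_zero] at h1
  rw [Finset.sum_ite_eq' (Finset.range N) e, if_pos (Finset.mem_range.2 he)] at h1
  have h2 : ((c e : ℤ) : ZMod 2) = 0 := by simpa using h1
  exact (ZMod.intCast_zmod_eq_zero_iff_dvd (c e) 2).1 h2

theorem r2_iff (hc : (commutator G).lowerCentralSeries c = ⊥) (h2c : 2 ≤ c)
    {a : Additive (commutator (MQ G))}
    (hA : wval (fun j => mq G (g j)) A = ((a.toMul : commutator (MQ G)) : MQ G))
    (h2 : TypeTwo (mq G (g i)) a)
    (I : List (List ℕ) × List Unit) (hI : PrEC I) : EC I ↔ SubsetSum g (r2 i A c I) := by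
  have hAQ : wval (fun j => mq G (g j)) A ∈ commutator (MQ G) := by
    rw [hA]; exact SetLike.coe_mem _
  have hAG := mem_comm_of hAQ
  constructor
  · intro h
    rw [EC] at h
    obtain ⟨b, hb, h⟩ := h
    simp only [selL_eq] at h
    set M := I.2.length with hM
    have hlt := pos_lt hI b
    rw [← hM] at hlt
    obtain ⟨b1, hb1, hSM, h4⟩ := (core (fun p => (Finsupp.single p (1 : ZMod 2) : ℕ →₀ ZMod 2))
      (fun p => by
        rw [← Finsupp.single_add]
        have : (1 : ZMod 2) + 1 = 0 := by decide
        rw [this, Finsupp.single_zero]) hind_single M (selI b I.1) hlt).1 h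
    set D := 3 * M + 1 with hD
    set X := (selI b1 (pairs M)).flatten ++ (posList 0 (selI b I.1)).map
      (fun p => D * p.1 + p.2) with hX
    set Y := (List.range M).map (fun e => D * e) with hY
    have hXlt : ∀ p ∈ X, p < D * (M + 1) + 1 := by
      intro p hp
      rcases List.mem_append.1 hp with hp | hp
      · exact pairs_lt M p (((selI_sublist b1 (pairs M)).flatten).subset hp)
      · obtain ⟨q, hq, rfl⟩ := List.mem_map.1 hp
        have h5 := posList_snd (selI b I.1) 0 q hq
        have h6 : q.1 ∈ (selI b I.1).flatten := by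
          rw [← posList_fst (selI b I.1) 0]
          exact List.mem_map.2 ⟨q, hq, rfl⟩
        have h7 := hlt _ h6
        have h8 : D * q.1 ≤ D * M := Nat.mul_le_mul_left _ h7.le
        rw [mul_add, mul_one]
        omega
    have hXlen : X.length ≤ M * (6 * M + 1) := by
      rw [hX, List.length_append, List.length_map, length_posList, hSM]
      have h5 := ((selI_sublist b1 (pairs M)).flatten).length_le
      rw [length_pairs] at h5
      nlinarith
    have hnd : Y.Nodup := by
      rw [hY]
      exact List.nodup_range.map (fun x y hxy => by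
        have hxy' : D * x = D * y := hxy
        exact Nat.eq_of_mul_eq_mul_left (by omega) hxy')
    have hpar : ∀ p, X.count p % 2 = Y.count p % 2 := by
      intro p
      have h5 : ((X.map fun q => Finsupp.single q (1 : ZMod 2)).sum : ℕ →₀ ZMod 2) p =
          ((Y.map fun q => Finsupp.single q (1 : ZMod 2)).sum : ℕ →₀ ZMod 2) p := by
        rw [hX, hY, List.map_append, List.sum_append, List.map_map, List.map_map]
        exact congrArg (fun f : ℕ →₀ ZMod 2 => f p) h4
      rw [sum_single_apply, sum_single_apply] at h5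
      exact (ZMod.natCast_eq_natCast_iff' _ _ _).1 h5
    obtain ⟨DD, hDD⟩ := exists_dbl X Y (List.nodup_iff_count_le_one.1 hnd) hpar
    have hlenDD : 2 * DD.length + Y.length = X.length := by
      rw [hDD.length_eq, List.length_append]
      have : ∀ L : List ℕ, (dbl L).length = 2 * L.length := by
        intro L
        induction L with
        | nil => rfl
        | cons x L ih =>
          have h : dbl (x :: L) = x :: x :: dbl L := rfl
          rw [h, List.length_cons, List.length_cons, ih, List.length_cons]; ring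
      rw [this]
    have hDDlt : ∀ p ∈ dbl DD ++ Y, p < D * (M + 1) + 1 := fun p hp =>
      hXlt p (hDD.mem_iff.2 hp)
    obtain ⟨b2, hb2, e2⟩ := sel_SL (i := i) (A := A) g (F_one hc hAG (D * (M + 1) + 1)) h2c X
      (dbl DD ++ Y) hDD
      hDDlt (R := 3 * (M * (6 * M + 1) + 1) ^ c) (by
        rw [← hDD.length_eq]
        exact Nat.mul_le_mul_left _ (Nat.pow_le_pow_left (by omega) c))
    obtain ⟨b3, hb3, e3⟩ := sel_SQ (i := i) (A := A) (P := D * (M + 1) + 1) g DD (fun p hp =>
      hDDlt p (List.mem_append_left _ (List.mem_flatMap.2 ⟨p, hp, by simp⟩)))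
      (R := M * (6 * M + 1)) (by omega)
    rw [subsetSum_iff', r2, f2_eq i A I hI, ← hM, ← hD]
    refine ⟨b3 ++ (b2 ++ (b1 ++ b)), by simp [hb3, hb2, hb1, hb], ?_⟩
    simp only
    rw [selI_append _ _ _ _ hb3, selI_append _ _ _ _ hb2, selI_append _ _ _ _ (by simpa using hb1),
      List.flatten_append, List.flatten_append, List.flatten_append, wval_append, wval_append,
      wval_append, selI_map, selI_map, e3, wval_append, wval_lw', wval_replicate]
    have e4 : ((selI b1 (pairs M)).map (lw i A)).flatten = lw i A (selI b1 (pairs M)).flatten := by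
      have := map_lw_flatten i A id (selI b1 (pairs M))
      simpa using this
    have e5 := wval_vw' g i A D (selI b I.1) 0
    rw [pow_zero, one_mul, zero_add, hSM] at e5
    have e6 : (X.map (uu g i A)).prod = ((selI b1 (pairs M)).flatten.map (uu g i A)).prod *
        ((posList 0 (selI b I.1)).map fun p => uu g i A (D * p.1 + p.2)).prod := by
      rw [hX, List.map_append, List.prod_append, List.map_map]
      rfl
    rw [e4, wval_lw', e5, ← mul_assoc (((selI b1 (pairs M)).flatten.map (uu g i A)).prod), ← e6,
      ← mul_assoc (wval g _), e2, List.map_append, List.prod_append]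
    simp only [mul_assoc, inv_mul_cancel_left, hY]
  · intro h
    refine (f2_iff hA h2 I hI).2 (sound g (fun j => mq G (g j)) (mq G) (fun _ => rfl)
      (SQ i A ((3 * I.2.length + 1) * (I.2.length + 1) + 1) (I.2.length * (6 * I.2.length + 1)) ++
        SL i A ((3 * I.2.length + 1) * (I.2.length + 1) + 1) (c - 1)
          (3 * (I.2.length * (6 * I.2.length + 1) + 1) ^ c)) _ _ (fun x hx => ?_) ?_)
    · rcases List.mem_append.1 hx with hx | hx
      · obtain ⟨_, _, hx⟩ := List.mem_flatMap.1 hx
        obtain ⟨w, hw, rfl⟩ := List.mem_map.1 hx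
        obtain ⟨e, _, rfl⟩ := List.mem_map.1 hw
        have h3 : ((a.toMul : commutator (MQ G)) : MQ G) * a.toMul = 1 := by
          have h4 : (a.toMul : commutator (MQ G)) * a.toMul = 1 := by
            have h5 := congrArg Additive.toMul h2.1
            exact h5
          exact congrArg Subtype.val h4
        rw [wval_winv, wval_append, wval_bw', uu, hA, inv_eq_one]
        have h6 : ∀ x y : MQ G, y * y = 1 → (x * y * x⁻¹) * (x * y * x⁻¹) = 1 := by
          intro x y hy
          have : (x * y * x⁻¹) * (x * y * x⁻¹) = x * (y * y) * x⁻¹ := by group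
          rw [this, hy]; group
        exact h6 _ _ h3
      · exact SL_one hAQ _ _ _ x hx
    · rw [List.append_assoc]
      exact h

theorem hardI_of_lcs (hc : (commutator G).lowerCentralSeries c = ⊥)
    (hg : Subgroup.closure (Set.range g) = ⊤)
    (hnot : ¬ ∃ H : Subgroup G, H.FiniteIndex ∧ Group.IsNilpotent H) :
    HardI (SubsetSum g) := by
  wlog h2c : 2 ≤ c generalizing c
  · refine this (c := 2) ?_ le_rfl
    rw [eq_bot_iff, ← hc]
    exact (commutator G).lowerCentralSeries_antitone (by omega)
  have hgQ : Subgroup.closure (Set.range fun j => mq G (g j)) = ⊤ := by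
    have h1 : (Set.range fun j => mq G (g j)) = (mq G) '' Set.range g := by
      rw [← Set.range_comp]; rfl
    rw [h1, ← MonoidHom.map_closure, hg, ← MonoidHom.range_eq_map,
      MonoidHom.range_eq_top.2 (QuotientGroup.mk'_surjective _)]
  have hnotQ : ¬ ∃ H : Subgroup (MQ G), H.FiniteIndex ∧ Group.IsNilpotent H :=
    fun h => hnot (virt_of_quot hc h)
  obtain ⟨i, a, h⟩ := exists_types hgQ hnotQ
  obtain ⟨A, hA⟩ := exists_word hgQ ((a.toMul : commutator (MQ G)) : MQ G)
  rcases h with ⟨K, hK1, hK⟩ | h
  · exact (hardPr_EC.trans (Pr' := fun _ => True) (poly_r0 i A K c) (fun _ _ => trivial)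
      (r0_iff hc h2c hA K hK1 hK)).toHardI
  · exact (hardPr_EC.trans (Pr' := fun _ => True) (poly_r2 i A c) (fun _ _ => trivial)
      (r2_iff hc h2c hA h)).toHardI

end

end Pool.Agent.NPC.SSP648
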